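import Pool.Agent.IVL.Z

/-!
Affine forms in three variables with an error term, in fixed point arithmetic
with the scale `2 ^ 40`; kernel friendly.
-/

namespace Pool.Agent.IVL

/-- The scale. -/
noncomputable def Sc : Nat := 1099511627776

theorem Sc_pos : (0 : ℝ) < (Sc : ℝ) := by
  unfold Sc
  norm_num

theorem Sc_val : (Sc : ℝ) = 1099511627776 := by
  unfold Sc
  norm_num

/-- A point of the cube. -/
structure PT where
  t1 : ℝ
  t2 : ℝ
  t3 : ℝ
  h1 : |t1| ≤ 1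
  h2 : |t2| ≤ 1
  h3 : |t3| ≤ 1

/-- Affine form: center, three slopes, error. -/
inductive AF where
  | mk (x0 x1 x2 x3 : Z) (e : Nat) : AF

namespace AF

/-- The linear part. -/
noncomputable def L (t : PT) (x1 x2 x3 : Z) : ℝ := x1.v * t.t1 + x2.v * t.t2 + x3.v * t.t3

/-- The magnitude of the linear part. -/
noncomputable def lm (x1 x2 x3 : Z) : Nat := Nat.add (Nat.add x1.m x2.m) x3.m

theorem abs_L_le (t : PT) (x1 x2 x3 : Z) : |L t x1 x2 x3| ≤ (lm x1 x2 x3 : ℝ) := by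
  have h1 : |x1.v * t.t1| ≤ (x1.m : ℝ) := by
    rw [abs_mul, Z.abs_v]
    exact mul_le_of_le_one_right (Nat.cast_nonneg _) t.h1
  have h2 : |x2.v * t.t2| ≤ (x2.m : ℝ) := by
    rw [abs_mul, Z.abs_v]
    exact mul_le_of_le_one_right (Nat.cast_nonneg _) t.h2
  have h3 : |x3.v * t.t3| ≤ (x3.m : ℝ) := by
    rw [abs_mul, Z.abs_v]
    exact mul_le_of_le_one_right (Nat.cast_nonneg _) t.h3
  have h4 : ((lm x1 x2 x3 : Nat) : ℝ) = (x1.m : ℝ) + x2.m + x3.m := by
    unfold lm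
    simp
  rw [h4]
  unfold L
  calc |x1.v * t.t1 + x2.v * t.t2 + x3.v * t.t3|
      ≤ |x1.v * t.t1 + x2.v * t.t2| + |x3.v * t.t3| := abs_add_le _ _
    _ ≤ |x1.v * t.t1| + |x2.v * t.t2| + |x3.v * t.t3| := by
        gcongr
        exact abs_add_le _ _
    _ ≤ _ := by gcongr

/-- The relation between an affine form and a real number. -/
def R (t : PT) (a : AF) (r : ℝ) : Prop :=
  match a with
  | mk x0 x1 x2 x3 e => |r * (Sc : ℝ) - (x0.v + L t x1 x2 x3)| ≤ (e : ℝ)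

theorem R_mk (t : PT) (x0 x1 x2 x3 : Z) (e : Nat) (r : ℝ) :
    R t (mk x0 x1 x2 x3 e) r ↔ |r * (Sc : ℝ) - (x0.v + L t x1 x2 x3)| ≤ (e : ℝ) := Iff.rfl

/-- continue with forced coefficients -/
noncomputable def mkK {β : Type} (x0 x1 x2 x3 : Z) (e : Nat) (k : AF → β) : β :=
  Z.fc x0 (fun y0 => Z.fc x1 (fun y1 => Z.fc x2 (fun y2 => Z.fc x3 (fun y3 =>
    Z.fcN e (fun f => k (mk y0 y1 y2 y3 f))))))

theorem mkK_eq {β : Type} (x0 x1 x2 x3 : Z) (e : Nat) (k : AF → β) :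
    mkK x0 x1 x2 x3 e k = k (mk x0 x1 x2 x3 e) := by
  unfold mkK
  rw [Z.fc_eq, Z.fc_eq, Z.fc_eq, Z.fc_eq, Z.fcN_eq]

/-- Addition, with continuation. -/
noncomputable def addK {β : Type} (a b : AF) (k : AF → β) : β :=
  AF.rec (fun x0 x1 x2 x3 e => AF.rec (fun y0 y1 y2 y3 f =>
    mkK (Z.add x0 y0) (Z.add x1 y1) (Z.add x2 y2) (Z.add x3 y3) (Nat.add e f) k) b) a

theorem addK_spec {β : Type} (a b : AF) (k : AF → β) : ∃ c, addK a b k = k c ∧
    ∀ t r s, R t a r → R t b s → R t c (r + s) := by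
  cases a with
  | mk x0 x1 x2 x3 e =>
    cases b with
    | mk y0 y1 y2 y3 f =>
      refine ⟨mk (Z.add x0 y0) (Z.add x1 y1) (Z.add x2 y2) (Z.add x3 y3) (Nat.add e f),
        mkK_eq _ _ _ _ _ _, ?_⟩
      intro t r s hr hs
      rw [R_mk] at *
      have e1 : (r + s) * (Sc : ℝ) - ((Z.add x0 y0).v
          + L t (Z.add x1 y1) (Z.add x2 y2) (Z.add x3 y3))
          = (r * (Sc : ℝ) - (x0.v + L t x1 x2 x3)) + (s * (Sc : ℝ) - (y0.v + L t y1 y2 y3)) := by
        unfold L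
        simp only [Z.v_add]
        ring
      rw [e1]
      have e2 : ((Nat.add e f : Nat) : ℝ) = (e : ℝ) + f := by simp
      rw [e2]
      exact (abs_add_le _ _).trans (add_le_add hr hs)

/-- Subtraction, with continuation. -/
noncomputable def subK {β : Type} (a b : AF) (k : AF → β) : β :=
  AF.rec (fun x0 x1 x2 x3 e => AF.rec (fun y0 y1 y2 y3 f =>
    mkK (Z.add x0 y0.neg) (Z.add x1 y1.neg) (Z.add x2 y2.neg) (Z.add x3 y3.neg)
      (Nat.add e f) k) b) a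

theorem subK_spec {β : Type} (a b : AF) (k : AF → β) : ∃ c, subK a b k = k c ∧
    ∀ t r s, R t a r → R t b s → R t c (r - s) := by
  cases a with
  | mk x0 x1 x2 x3 e =>
    cases b with
    | mk y0 y1 y2 y3 f =>
      refine ⟨mk (Z.add x0 y0.neg) (Z.add x1 y1.neg) (Z.add x2 y2.neg) (Z.add x3 y3.neg)
        (Nat.add e f), mkK_eq _ _ _ _ _ _, ?_⟩
      intro t r s hr hs
      rw [R_mk] at *
      have e1 : (r - s) * (Sc : ℝ) - ((Z.add x0 y0.neg).v
          + L t (Z.add x1 y1.neg) (Z.add x2 y2.neg) (Z.add x3 y3.neg))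
          = (r * (Sc : ℝ) - (x0.v + L t x1 x2 x3)) - (s * (Sc : ℝ) - (y0.v + L t y1 y2 y3)) := by
        unfold L
        simp only [Z.v_add, Z.v_neg]
        ring
      rw [e1]
      have e2 : ((Nat.add e f : Nat) : ℝ) = (e : ℝ) + f := by simp
      rw [e2]
      exact (abs_sub _ _).trans (add_le_add hr hs)

end AF

end Pool.Agent.IVL
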