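import Pool.Agent.IVL.CsK

namespace Pool.Agent.IVL

namespace AF

/-- constant -/
noncomputable def cst (z : Z) (e : Nat) : AF := mk z (Z.p 0) (Z.p 0) (Z.p 0) e

theorem L_zero (t : PT) : L t (Z.p 0) (Z.p 0) (Z.p 0) = 0 := by
  unfold L
  simp

theorem cst_spec (t : PT) (z : Z) (e : Nat) (r : ℝ) (h : |r * (Sc : ℝ) - z.v| ≤ (e : ℝ)) :
    R t (cst z e) r := by
  unfold cst
  rw [R_mk, L_zero, add_zero]
  exact h

/-- the variables -/
noncomputable def var1 (c : Z) (w : Nat) : AF := mk c (Z.p w) (Z.p 0) (Z.p 0) 0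
/-- the variables -/
noncomputable def var2 (c : Z) (w : Nat) : AF := mk c (Z.p 0) (Z.p w) (Z.p 0) 0
/-- the variables -/
noncomputable def var3 (c : Z) (w : Nat) : AF := mk c (Z.p 0) (Z.p 0) (Z.p w) 0

theorem exists_t (c : ℝ) (w : Nat) (u : ℝ) (h : |u - c| ≤ (w : ℝ)) :
    ∃ t : ℝ, |t| ≤ 1 ∧ u - (c + (w : ℝ) * t) = 0 := by
  by_cases hw : w = 0
  · refine ⟨0, by simp, ?_⟩
    rw [hw] at h
    have h0 : |u - c| ≤ 0 := by simpa using h
    have h1 : u - c = 0 := abs_nonpos_iff.mp h0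
    rw [mul_zero, add_zero, h1]
  · have hw' : (0 : ℝ) < w := by
      have : 0 < w := Nat.pos_of_ne_zero hw
      exact_mod_cast this
    refine ⟨(u - c) / w, ?_, ?_⟩
    · rw [abs_div, abs_of_pos hw', div_le_one hw']
      exact h
    · field_simp
      ring

theorem vars_spec (c1 c2 c3 : Z) (w1 w2 w3 : Nat) (x y z : ℝ)
    (h1 : |x * (Sc : ℝ) - c1.v| ≤ (w1 : ℝ)) (h2 : |y * (Sc : ℝ) - c2.v| ≤ (w2 : ℝ))
    (h3 : |z * (Sc : ℝ) - c3.v| ≤ (w3 : ℝ)) :
    ∃ t : PT, R t (var1 c1 w1) x ∧ R t (var2 c2 w2) y ∧ R t (var3 c3 w3) z := by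
  obtain ⟨t1, a1, b1⟩ := exists_t _ _ _ h1
  obtain ⟨t2, a2, b2⟩ := exists_t _ _ _ h2
  obtain ⟨t3, a3, b3⟩ := exists_t _ _ _ h3
  refine ⟨⟨t1, t2, t3, a1, a2, a3⟩, ?_, ?_, ?_⟩
  · unfold var1
    rw [R_mk]
    unfold L
    simp only [Z.v_p, Nat.cast_zero, zero_mul, add_zero]
    rw [b1, abs_zero]
  · unfold var2
    rw [R_mk]
    unfold L
    simp only [Z.v_p, Nat.cast_zero, zero_mul, add_zero, zero_add]
    rw [b2, abs_zero]
  · unfold var3
    rw [R_mk]
    unfold L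
    simp only [Z.v_p, Nat.cast_zero, zero_mul, add_zero, zero_add]
    rw [b3, abs_zero]

/-- positivity test -/
noncomputable def posB (a : AF) : Bool :=
  AF.rec (fun x0 x1 x2 x3 e => Z.rec (fun q => Nat.ble (Nat.succ (Nat.add (lm x1 x2 x3) e)) q)
    (fun _ => false) x0) a

theorem posB_spec (a : AF) (h : posB a = true) (t : PT) (r : ℝ) (hr : R t a r) : 0 < r := by
  have hS := Sc_pos
  cases a with
  | mk x0 x1 x2 x3 e =>
    cases x0 with
    | p q =>
      have h1 : Nat.succ (Nat.add (lm x1 x2 x3) e) ≤ q := by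
        have : Nat.ble (Nat.succ (Nat.add (lm x1 x2 x3) e)) q = true := h
        simpa using this
      have h2 : (lm x1 x2 x3 : ℝ) + e + 1 ≤ q := by
        have : lm x1 x2 x3 + e + 1 ≤ q := h1
        exact_mod_cast this
      rw [R_mk, Z.v_p, abs_le] at hr
      have hl := abs_L_le t x1 x2 x3
      rw [abs_le] at hl
      have h3 : 0 < r * (Sc : ℝ) := by linarith [hr.1, hl.1]
      by_contra h4
      push Not at h4
      have : r * (Sc : ℝ) ≤ 0 := mul_nonpos_of_nonpos_of_nonneg h4 hS.le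
      linarith
    | n q =>
      exact absurd (show false = true from h) (by decide)

/-- multiplication by `z / d` -/
noncomputable def smK {β : Type} (z : Z) (d : Nat) (a : AF) (k : AF → β) : β :=
  AF.rec (fun x0 x1 x2 x3 e =>
    mkK (Z.dv d (Z.mul z x0)) (Z.dv d (Z.mul z x1)) (Z.dv d (Z.mul z x2)) (Z.dv d (Z.mul z x3))
      (Nat.add (Nat.div (Nat.mul z.m e) d) 5) k) a

theorem smK_spec {β : Type} (z : Z) (d : Nat) (hd : 0 < d) (a : AF) (k : AF → β) :
    ∃ c, smK z d a k = k c ∧ ∀ t r, R t a r → R t c (z.v / (d : ℝ) * r) := by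
  have hd' : (0 : ℝ) < d := by exact_mod_cast hd
  cases a with
  | mk x0 x1 x2 x3 e =>
    refine ⟨_, mkK_eq _ _ _ _ _ _, ?_⟩
    intro t r hr
    rw [R_mk] at *
    have h0 := Z.dv_err d hd (Z.mul z x0)
    have h1 := Z.dv_err d hd (Z.mul z x1)
    have h2 := Z.dv_err d hd (Z.mul z x2)
    have h3 := Z.dv_err d hd (Z.mul z x3)
    have hL := L_err t _ _ _ _ _ _ h1 h2 h3
    have lin : (Z.mul z x1).v / (d : ℝ) * t.t1 + (Z.mul z x2).v / (d : ℝ) * t.t2
        + (Z.mul z x3).v / (d : ℝ) * t.t3 = z.v / (d : ℝ) * L t x1 x2 x3 := by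
      simp only [Z.v_mul]
      unfold L
      ring
    rw [lin] at hL
    rw [Z.v_mul] at h0
    have e1 : z.v / (d : ℝ) * r * (Sc : ℝ) - ((Z.dv d (Z.mul z x0)).v
        + L t (Z.dv d (Z.mul z x1)) (Z.dv d (Z.mul z x2)) (Z.dv d (Z.mul z x3)))
        = z.v / (d : ℝ) * (r * (Sc : ℝ) - (x0.v + L t x1 x2 x3))
          + (-((Z.dv d (Z.mul z x0)).v - z.v * x0.v / (d : ℝ))
          + -(L t (Z.dv d (Z.mul z x1)) (Z.dv d (Z.mul z x2)) (Z.dv d (Z.mul z x3))
            - z.v / (d : ℝ) * L t x1 x2 x3)) := by ring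
    rw [e1]
    have g1 := abs_add_le (z.v / (d : ℝ) * (r * (Sc : ℝ) - (x0.v + L t x1 x2 x3)))
      (-((Z.dv d (Z.mul z x0)).v - z.v * x0.v / (d : ℝ))
          + -(L t (Z.dv d (Z.mul z x1)) (Z.dv d (Z.mul z x2)) (Z.dv d (Z.mul z x3))
            - z.v / (d : ℝ) * L t x1 x2 x3))
    have g2 := abs_add_le (-((Z.dv d (Z.mul z x0)).v - z.v * x0.v / (d : ℝ)))
      (-(L t (Z.dv d (Z.mul z x1)) (Z.dv d (Z.mul z x2)) (Z.dv d (Z.mul z x3))
            - z.v / (d : ℝ) * L t x1 x2 x3))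
    rw [abs_neg, abs_neg] at g2
    have g3 : |z.v / (d : ℝ) * (r * (Sc : ℝ) - (x0.v + L t x1 x2 x3))|
        ≤ (z.m : ℝ) * e / (d : ℝ) := by
      rw [abs_mul, abs_div, Z.abs_v, abs_of_pos hd']
      calc (z.m : ℝ) / d * |r * (Sc : ℝ) - (x0.v + L t x1 x2 x3)| ≤ (z.m : ℝ) / d * e := by gcongr
        _ = (z.m : ℝ) * e / d := by ring
    have g4 : (z.m : ℝ) * e / (d : ℝ) ≤ ((Nat.div (Nat.mul z.m e) d : Nat) : ℝ) + 1 := by
      have h := Z.nat_div_err (z.m * e) d hd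
      rw [abs_le] at h
      have h5 := h.1
      push_cast at h5
      change -1 ≤ ((Nat.div (Nat.mul z.m e) d : Nat) : ℝ) - _ at h5
      linarith
    have e5 : ((Nat.add (Nat.div (Nat.mul z.m e) d) 5 : Nat) : ℝ)
        = ((Nat.div (Nat.mul z.m e) d : Nat) : ℝ) + 5 := by
      simp only [Nat.add_eq]
      push_cast
      rfl
    rw [e5]
    linarith

end AF

/-- Or. -/
noncomputable def orB (a b : Bool) : Bool := Bool.rec b true a

theorem orB_eq (a b : Bool) (h : orB a b = true) : a = true ∨ b = true := by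
  cases a with
  | true => exact Or.inl rfl
  | false => exact Or.inr h

/-- And. -/
noncomputable def andB (a b : Bool) : Bool := Bool.rec false b a

theorem andB_eq (a b : Bool) (h : andB a b = true) : a = true ∧ b = true := by
  cases a with
  | true => exact ⟨rfl, h⟩
  | false => exact absurd (show false = true from h) (by decide)

/-- half, rounded up -/
noncomputable def hf (w : Nat) : Nat := Nat.div (Nat.succ w) 2

theorem hf_spec (w : Nat) : w ≤ 2 * hf w := by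
  unfold hf
  change w ≤ 2 * ((w + 1) / 2)
  omega

/-- One split. -/
noncomputable def splt (c : Z) (w : Nat) (k : Z → Nat → Bool) : Bool :=
  Z.fcN (hf w) (fun v => Z.fc (Z.add c (Z.n v)) (fun a => Z.fc (Z.add c (Z.p v)) (fun b =>
    andB (k a v) (k b v))))

theorem splt_spec (c : Z) (w : Nat) (k : Z → Nat → Bool) (h : splt c w k = true) :
    ∃ a b v, k a v = true ∧ k b v = true ∧
      ∀ u : ℝ, |u - c.v| ≤ (w : ℝ) → |u - a.v| ≤ (v : ℝ) ∨ |u - b.v| ≤ (v : ℝ) := by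
  unfold splt at h
  rw [Z.fcN_eq, Z.fc_eq, Z.fc_eq] at h
  obtain ⟨h1, h2⟩ := andB_eq _ _ h
  refine ⟨_, _, _, h1, h2, ?_⟩
  intro u hu
  have h3 : (w : ℝ) ≤ 2 * (hf w : ℝ) := by exact_mod_cast hf_spec w
  rw [Z.v_add, Z.v_add, Z.v_n, Z.v_p]
  rw [abs_le] at hu
  rcases le_total u c.v with h4 | h4
  · left
    rw [abs_le]
    constructor
    · linarith [hu.1]
    · linarith
  · right
    rw [abs_le]
    constructor
    · linarith
    · linarith [hu.2]

/-- The checker: branch on the widest variable. -/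
noncomputable def check (T : Z → Nat → Z → Nat → Z → Nat → Bool) (n : Nat) :
    Z → Nat → Z → Nat → Z → Nat → Bool :=
  Nat.rec (motive := fun _ => Z → Nat → Z → Nat → Z → Nat → Bool)
    T
    (fun _ ih c1 w1 c2 w2 c3 w3 =>
      Bool.rec
        (Bool.rec
          (Bool.rec (splt c3 w3 (fun c w => ih c1 w1 c2 w2 c w))
            (splt c2 w2 (fun c w => ih c1 w1 c w c3 w3)) (Nat.ble w3 w2))
          (Bool.rec (splt c3 w3 (fun c w => ih c1 w1 c2 w2 c w))
            (splt c1 w1 (fun c w => ih c w c2 w2 c3 w3)) (Nat.ble w3 w1))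
          (Nat.ble w2 w1))
        true (T c1 w1 c2 w2 c3 w3)) n

/-- The box. -/
def InBox (c1 : Z) (w1 : Nat) (c2 : Z) (w2 : Nat) (c3 : Z) (w3 : Nat) (x y z : ℝ) : Prop :=
  |x * (Sc : ℝ) - c1.v| ≤ (w1 : ℝ) ∧ |y * (Sc : ℝ) - c2.v| ≤ (w2 : ℝ) ∧
    |z * (Sc : ℝ) - c3.v| ≤ (w3 : ℝ)

theorem check_spec (T : Z → Nat → Z → Nat → Z → Nat → Bool) (P : ℝ → ℝ → ℝ → Prop)
    (hT : ∀ c1 w1 c2 w2 c3 w3, T c1 w1 c2 w2 c3 w3 = true →
      ∀ x y z, InBox c1 w1 c2 w2 c3 w3 x y z → P x y z) (n : Nat) :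
    ∀ c1 w1 c2 w2 c3 w3, check T n c1 w1 c2 w2 c3 w3 = true →
      ∀ x y z, InBox c1 w1 c2 w2 c3 w3 x y z → P x y z := by
  induction n with
  | zero => exact hT
  | succ n ih =>
    intro c1 w1 c2 w2 c3 w3 h x y z hb
    have s1 : splt c1 w1 (fun c w => check T n c w c2 w2 c3 w3) = true → P x y z := by
      intro hs
      obtain ⟨a, b, v, ha, hb', hu⟩ := splt_spec _ _ _ hs
      rcases hu _ hb.1 with h1 | h1
      · exact ih _ _ _ _ _ _ ha x y z ⟨h1, hb.2⟩
      · exact ih _ _ _ _ _ _ hb' x y z ⟨h1, hb.2⟩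
    have s2 : splt c2 w2 (fun c w => check T n c1 w1 c w c3 w3) = true → P x y z := by
      intro hs
      obtain ⟨a, b, v, ha, hb', hu⟩ := splt_spec _ _ _ hs
      rcases hu _ hb.2.1 with h1 | h1
      · exact ih _ _ _ _ _ _ ha x y z ⟨hb.1, h1, hb.2.2⟩
      · exact ih _ _ _ _ _ _ hb' x y z ⟨hb.1, h1, hb.2.2⟩
    have s3 : splt c3 w3 (fun c w => check T n c1 w1 c2 w2 c w) = true → P x y z := by
      intro hs
      obtain ⟨a, b, v, ha, hb', hu⟩ := splt_spec _ _ _ hs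
      rcases hu _ hb.2.2 with h1 | h1
      · exact ih _ _ _ _ _ _ ha x y z ⟨hb.1, hb.2.1, h1⟩
      · exact ih _ _ _ _ _ _ hb' x y z ⟨hb.1, hb.2.1, h1⟩
    have h' : Bool.rec (motive := fun _ => Bool)
        (Bool.rec (motive := fun _ => Bool)
          (Bool.rec (motive := fun _ => Bool) (splt c3 w3 (fun c w => check T n c1 w1 c2 w2 c w))
            (splt c2 w2 (fun c w => check T n c1 w1 c w c3 w3)) (Nat.ble w3 w2))
          (Bool.rec (motive := fun _ => Bool) (splt c3 w3 (fun c w => check T n c1 w1 c2 w2 c w))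
            (splt c1 w1 (fun c w => check T n c w c2 w2 c3 w3)) (Nat.ble w3 w1))
          (Nat.ble w2 w1))
        true (T c1 w1 c2 w2 c3 w3) = true := h
    rcases hTv : T c1 w1 c2 w2 c3 w3 with _ | _
    · rw [hTv] at h'
      rcases h21 : Nat.ble w2 w1 with _ | _
      · rw [h21] at h'
        rcases h32 : Nat.ble w3 w2 with _ | _
        · rw [h32] at h'
          exact s3 h'
        · rw [h32] at h'
          exact s2 h'
      · rw [h21] at h'
        rcases h31 : Nat.ble w3 w1 with _ | _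
        · rw [h31] at h'
          exact s3 h'
        · rw [h31] at h'
          exact s1 h'
    · exact hT _ _ _ _ _ _ hTv x y z hb

end Pool.Agent.IVL
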