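import Pool.Agent.IVL.Trig

namespace Pool.Agent.IVL

/-- cosine by Horner (argument `u = y^2`). -/
noncomputable def hC (U : Nat) : Nat :=
  hst U (hst U (hst U (hst U (hst U (hst U 1099511627776 132) 90) 56) 30) 12) 2

/-- sine over argument by Horner. -/
noncomputable def hQ (U : Nat) : Nat :=
  hst U (hst U (hst U (hst U (hst U (hst U 1099511627776 156) 110) 72) 42) 20) 6

theorem h_base : |((1099511627776 : Nat) : ℝ) - 1 * (Sc : ℝ)| ≤ 3 := by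
  rw [Sc_val]
  norm_num

theorem hC_spec (U : Nat) (u : ℝ) (hu : |(U : ℝ) - u * (Sc : ℝ)| ≤ 1) (h0 : 0 ≤ u) (h1 : u ≤ 1)
    (hU : U ≤ 1099511627776) :
    |((hC U : Nat) : ℝ) - (1 - u * (1 - u * (1 - u * (1 - u * (1 - u * (1 - u * 1 / ((132 : ℕ) : ℝ))
      / ((90 : ℕ) : ℝ)) / ((56 : ℕ) : ℝ)) / ((30 : ℕ) : ℝ)) / ((12 : ℕ) : ℝ))
      / ((2 : ℕ) : ℝ)) * (Sc : ℝ)| ≤ 3 := by
  obtain ⟨a1, a2, a3, a4⟩ := hst_spec U 1099511627776 132 u 1 hu h0 h1 (by norm_num) le_rfl hU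
    le_rfl h_base (by norm_num)
  obtain ⟨b1, b2, b3, b4⟩ := hst_spec U _ 90 u _ hu h0 h1 a3 a4 hU a2 a1 (by norm_num)
  obtain ⟨c1, c2, c3, c4⟩ := hst_spec U _ 56 u _ hu h0 h1 b3 b4 hU b2 b1 (by norm_num)
  obtain ⟨d1, d2, d3, d4⟩ := hst_spec U _ 30 u _ hu h0 h1 c3 c4 hU c2 c1 (by norm_num)
  obtain ⟨e1, e2, e3, e4⟩ := hst_spec U _ 12 u _ hu h0 h1 d3 d4 hU d2 d1 (by norm_num)
  obtain ⟨f1, f2, f3, f4⟩ := hst_spec U _ 2 u _ hu h0 h1 e3 e4 hU e2 e1 (by norm_num)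
  exact f1

theorem hQ_spec (U : Nat) (u : ℝ) (hu : |(U : ℝ) - u * (Sc : ℝ)| ≤ 1) (h0 : 0 ≤ u) (h1 : u ≤ 1)
    (hU : U ≤ 1099511627776) :
    |((hQ U : Nat) : ℝ) - (1 - u * (1 - u * (1 - u * (1 - u * (1 - u * (1 - u * 1 / ((156 : ℕ) : ℝ))
      / ((110 : ℕ) : ℝ)) / ((72 : ℕ) : ℝ)) / ((42 : ℕ) : ℝ)) / ((20 : ℕ) : ℝ))
      / ((6 : ℕ) : ℝ)) * (Sc : ℝ)| ≤ 3 := by
  obtain ⟨a1, a2, a3, a4⟩ := hst_spec U 1099511627776 156 u 1 hu h0 h1 (by norm_num) le_rfl hU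
    le_rfl h_base (by norm_num)
  obtain ⟨b1, b2, b3, b4⟩ := hst_spec U _ 110 u _ hu h0 h1 a3 a4 hU a2 a1 (by norm_num)
  obtain ⟨c1, c2, c3, c4⟩ := hst_spec U _ 72 u _ hu h0 h1 b3 b4 hU b2 b1 (by norm_num)
  obtain ⟨d1, d2, d3, d4⟩ := hst_spec U _ 42 u _ hu h0 h1 c3 c4 hU c2 c1 (by norm_num)
  obtain ⟨e1, e2, e3, e4⟩ := hst_spec U _ 20 u _ hu h0 h1 d3 d4 hU d2 d1 (by norm_num)
  obtain ⟨f1, f2, f3, f4⟩ := hst_spec U _ 6 u _ hu h0 h1 e3 e4 hU e2 e1 (by norm_num)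
  exact f1

/-- square argument -/
noncomputable def uN (M : Nat) : Nat := Nat.div (Nat.mul M M) 70368744177664

/-- sine of `M / (8 S)` -/
noncomputable def sN (M Q : Nat) : Nat := Nat.div (Nat.mul M Q) 8796093022208

theorem cs8 (M : Nat) (hM : M ≤ 8796093022208) :
    |((hC (uN M) : Nat) : ℝ) - Real.cos ((M : ℝ) / (8 * (Sc : ℝ))) * (Sc : ℝ)| ≤ 18 ∧
    |((sN M (hQ (uN M)) : Nat) : ℝ) - Real.sin ((M : ℝ) / (8 * (Sc : ℝ))) * (Sc : ℝ)| ≤ 19 := by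
  have hS := Sc_pos
  have hSv := Sc_val
  obtain ⟨y, hy⟩ : ∃ y : ℝ, y = (M : ℝ) / (8 * (Sc : ℝ)) := ⟨_, rfl⟩
  have hM' : (M : ℝ) ≤ 8 * (Sc : ℝ) := by
    rw [hSv]
    have : (M : ℝ) ≤ (8796093022208 : ℝ) := by exact_mod_cast hM
    linarith
  have y0 : 0 ≤ y := by rw [hy]; positivity
  have y1 : y ≤ 1 := by
    rw [hy, div_le_one (by positivity)]
    exact hM'
  have hyM : (M : ℝ) = y * (8 * (Sc : ℝ)) := by
    rw [hy]
    field_simp
  have hya : |y| ≤ 1 := by rw [abs_of_nonneg y0]; exact y1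
  obtain ⟨t1, t2⟩ := taylor_cs y hya
  have hu0 : 0 ≤ y ^ 2 := by positivity
  have hu1 : y ^ 2 ≤ 1 := pow_le_one₀ y0 y1
  have hU : |((uN M : Nat) : ℝ) - y ^ 2 * (Sc : ℝ)| ≤ 1 := by
    have h := Z.nat_div_err (M * M) 70368744177664 (by norm_num)
    have e : ((M * M : Nat) : ℝ) / ((70368744177664 : Nat) : ℝ) = y ^ 2 * (Sc : ℝ) := by
      push_cast
      rw [hyM, hSv]
      ring
    rw [e] at h
    exact h
  have hUle : uN M ≤ 1099511627776 := by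
    unfold uN
    change M * M / 70368744177664 ≤ 1099511627776
    apply Nat.div_le_of_le_mul
    calc M * M ≤ 8796093022208 * 8796093022208 := Nat.mul_le_mul hM hM
      _ ≤ _ := by norm_num
  have c := hC_spec (uN M) (y ^ 2) hU hu0 hu1 hUle
  have q := hQ_spec (uN M) (y ^ 2) hU hu0 hu1 hUle
  have ec : (1 - y ^ 2 * (1 - y ^ 2 * (1 - y ^ 2 * (1 - y ^ 2 * (1 - y ^ 2 *
      (1 - y ^ 2 * 1 / ((132 : ℕ) : ℝ)) / ((90 : ℕ) : ℝ)) / ((56 : ℕ) : ℝ)) / ((30 : ℕ) : ℝ))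
      / ((12 : ℕ) : ℝ)) / ((2 : ℕ) : ℝ)) = cT y := by
    unfold cT
    push_cast
    ring
  have es : (1 - y ^ 2 * (1 - y ^ 2 * (1 - y ^ 2 * (1 - y ^ 2 * (1 - y ^ 2 *
      (1 - y ^ 2 * 1 / ((156 : ℕ) : ℝ)) / ((110 : ℕ) : ℝ)) / ((72 : ℕ) : ℝ)) / ((42 : ℕ) : ℝ))
      / ((20 : ℕ) : ℝ)) / ((6 : ℕ) : ℝ)) = sT y := by
    unfold sT
    push_cast
    ring
  rw [ec] at c
  rw [es] at q
  rw [← hy]
  constructor
  · have e : ((hC (uN M) : Nat) : ℝ) - Real.cos y * (Sc : ℝ)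
        = (((hC (uN M) : Nat) : ℝ) - cT y * (Sc : ℝ)) - (Real.cos y - cT y) * (Sc : ℝ) := by ring
    rw [e]
    have h1 : |(Real.cos y - cT y) * (Sc : ℝ)| ≤ 15 := by
      rw [abs_mul, abs_of_pos hS, hSv]
      calc |Real.cos y - cT y| * 1099511627776 ≤ 13 / 10 ^ 12 * 1099511627776 := by gcongr
        _ ≤ 15 := by norm_num
    have h2 := abs_sub (((hC (uN M) : Nat) : ℝ) - cT y * (Sc : ℝ))
      ((Real.cos y - cT y) * (Sc : ℝ))
    linarith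
  · have hd := Z.nat_div_err (M * hQ (uN M)) 8796093022208 (by norm_num)
    have e0 : ((M * hQ (uN M) : Nat) : ℝ) / ((8796093022208 : Nat) : ℝ)
        = y * ((hQ (uN M) : Nat) : ℝ) := by
      push_cast
      rw [hyM, hSv]
      ring
    rw [e0] at hd
    have e1 : ((sN M (hQ (uN M)) : Nat) : ℝ) = ((M * hQ (uN M) / 8796093022208 : Nat) : ℝ) := rfl
    rw [e1]
    have e : ((M * hQ (uN M) / 8796093022208 : Nat) : ℝ) - Real.sin y * (Sc : ℝ)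
        = (((M * hQ (uN M) / 8796093022208 : Nat) : ℝ) - y * ((hQ (uN M) : Nat) : ℝ))
          + (y * (((hQ (uN M) : Nat) : ℝ) - sT y * (Sc : ℝ))
            - (Real.sin y - y * sT y) * (Sc : ℝ)) := by ring
    rw [e]
    have h1 : |(Real.sin y - y * sT y) * (Sc : ℝ)| ≤ 15 := by
      rw [abs_mul, abs_of_pos hS, hSv]
      calc |Real.sin y - y * sT y| * 1099511627776 ≤ 13 / 10 ^ 12 * 1099511627776 := by gcongr
        _ ≤ 15 := by norm_num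
    have h2 : |y * (((hQ (uN M) : Nat) : ℝ) - sT y * (Sc : ℝ))| ≤ 3 := by
      rw [abs_mul]
      calc |y| * |((hQ (uN M) : Nat) : ℝ) - sT y * (Sc : ℝ)| ≤ 1 * 3 := by gcongr
        _ = 3 := by norm_num
    have h3 := abs_add_le (((M * hQ (uN M) / 8796093022208 : Nat) : ℝ)
      - y * ((hQ (uN M) : Nat) : ℝ)) (y * (((hQ (uN M) : Nat) : ℝ) - sT y * (Sc : ℝ))
            - (Real.sin y - y * sT y) * (Sc : ℝ))
    have h4 := abs_sub (y * (((hQ (uN M) : Nat) : ℝ) - sT y * (Sc : ℝ)))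
      ((Real.sin y - y * sT y) * (Sc : ℝ))
    linarith

/-- doubling of the angle: cosine -/
noncomputable def dbC (c : Z) : Z := Z.add (Z.dv 549755813888 (Z.mul c c)) (Z.n 1099511627776)

/-- doubling of the angle: sine -/
noncomputable def dbS (c s : Z) : Z := Z.dv 549755813888 (Z.mul s c)

theorem half_cast : ((549755813888 : Nat) : ℝ) = (Sc : ℝ) / 2 := by
  rw [Sc_val]
  norm_num

theorem dbl_spec (c s : Z) (x d : ℝ) (hd0 : 0 ≤ d) (hd : d ≤ 2000)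
    (hc : |c.v - Real.cos x * (Sc : ℝ)| ≤ d) (hs : |s.v - Real.sin x * (Sc : ℝ)| ≤ d) :
    |(dbC c).v - Real.cos (2 * x) * (Sc : ℝ)| ≤ 4 * d + 2 ∧
    |(dbS c s).v - Real.sin (2 * x) * (Sc : ℝ)| ≤ 4 * d + 2 := by
  have hS := Sc_pos
  have hSv := Sc_val
  have hdd : d * d ≤ 4000000 := by nlinarith
  have hsm : 2 * (d * d) / (Sc : ℝ) ≤ 1 := by
    rw [div_le_one hS, hSv]
    linarith
  have cc : |Real.cos x| ≤ 1 := Real.abs_cos_le_one x
  have ss : |Real.sin x| ≤ 1 := Real.abs_sin_le_one x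
  constructor
  · have h := Z.dv_err 549755813888 (by norm_num) (Z.mul c c)
    rw [half_cast, Z.v_mul] at h
    have e : (dbC c).v - Real.cos (2 * x) * (Sc : ℝ)
        = ((Z.dv 549755813888 (Z.mul c c)).v - c.v * c.v / ((Sc : ℝ) / 2))
          + 2 * (((c.v - Real.cos x * (Sc : ℝ)) * (c.v - Real.cos x * (Sc : ℝ))
            + 2 * (Real.cos x * (Sc : ℝ)) * (c.v - Real.cos x * (Sc : ℝ))) / (Sc : ℝ)) := by
      unfold dbC
      rw [Z.v_add, Real.cos_two_mul, Z.v_n]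
      have : ((1099511627776 : Nat) : ℝ) = (Sc : ℝ) := by rw [hSv]; norm_num
      rw [this]
      field_simp
      ring
    rw [e]
    have h2 : |2 * (((c.v - Real.cos x * (Sc : ℝ)) * (c.v - Real.cos x * (Sc : ℝ))
            + 2 * (Real.cos x * (Sc : ℝ)) * (c.v - Real.cos x * (Sc : ℝ))) / (Sc : ℝ))|
          ≤ 2 * (d * d) / (Sc : ℝ) + 4 * d := by
      obtain ⟨w, hw⟩ : ∃ w, w = c.v - Real.cos x * (Sc : ℝ) := ⟨_, rfl⟩
      rw [← hw] at hc ⊢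
      have e2 : 2 * ((w * w + 2 * (Real.cos x * (Sc : ℝ)) * w) / (Sc : ℝ))
          = 2 * (w * w) / (Sc : ℝ) + 4 * (Real.cos x * w) := by
        field_simp
        ring
      rw [e2]
      have f1 : |2 * (w * w) / (Sc : ℝ)| ≤ 2 * (d * d) / (Sc : ℝ) := by
        rw [abs_div, abs_of_pos hS, abs_mul, abs_mul, abs_of_pos (by norm_num : (0 : ℝ) < 2)]
        gcongr
      have f2 : |4 * (Real.cos x * w)| ≤ 4 * d := by
        rw [abs_mul, abs_mul, abs_of_pos (by norm_num : (0 : ℝ) < 4)]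
        have : |Real.cos x| * |w| ≤ 1 * d := by gcongr
        linarith
      exact (abs_add_le _ _).trans (add_le_add f1 f2)
    have h3 := abs_add_le ((Z.dv 549755813888 (Z.mul c c)).v - c.v * c.v / ((Sc : ℝ) / 2))
      (2 * (((c.v - Real.cos x * (Sc : ℝ)) * (c.v - Real.cos x * (Sc : ℝ))
            + 2 * (Real.cos x * (Sc : ℝ)) * (c.v - Real.cos x * (Sc : ℝ))) / (Sc : ℝ)))
    linarith
  · have h := Z.dv_err 549755813888 (by norm_num) (Z.mul s c)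
    rw [half_cast, Z.v_mul] at h
    obtain ⟨w, hw⟩ : ∃ w, w = c.v - Real.cos x * (Sc : ℝ) := ⟨_, rfl⟩
    obtain ⟨z, hz⟩ : ∃ z, z = s.v - Real.sin x * (Sc : ℝ) := ⟨_, rfl⟩
    have e : (dbS c s).v - Real.sin (2 * x) * (Sc : ℝ)
        = ((Z.dv 549755813888 (Z.mul s c)).v - s.v * c.v / ((Sc : ℝ) / 2))
          + (2 * (z * w) / (Sc : ℝ) + 2 * (Real.cos x * z) + 2 * (Real.sin x * w)) := by
      unfold dbS
      rw [Real.sin_two_mul]
      have hc' : c.v = w + Real.cos x * (Sc : ℝ) := by rw [hw]; ring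
      have hs' : s.v = z + Real.sin x * (Sc : ℝ) := by rw [hz]; ring
      rw [hc', hs']
      field_simp
      ring
    rw [e]
    rw [← hw] at hc
    rw [← hz] at hs
    have f1 : |2 * (z * w) / (Sc : ℝ)| ≤ 2 * (d * d) / (Sc : ℝ) := by
      rw [abs_div, abs_of_pos hS, abs_mul, abs_mul, abs_of_pos (by norm_num : (0 : ℝ) < 2)]
      gcongr
    have f2 : |2 * (Real.cos x * z)| ≤ 2 * d := by
      rw [abs_mul, abs_mul, abs_of_pos (by norm_num : (0 : ℝ) < 2)]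
      have : |Real.cos x| * |z| ≤ 1 * d := by gcongr
      linarith
    have f3 : |2 * (Real.sin x * w)| ≤ 2 * d := by
      rw [abs_mul, abs_mul, abs_of_pos (by norm_num : (0 : ℝ) < 2)]
      have : |Real.sin x| * |w| ≤ 1 * d := by gcongr
      linarith
    have h3 := abs_add_le ((Z.dv 549755813888 (Z.mul s c)).v - s.v * c.v / ((Sc : ℝ) / 2))
      (2 * (z * w) / (Sc : ℝ) + 2 * (Real.cos x * z) + 2 * (Real.sin x * w))
    have h4 := abs_add_le (2 * (z * w) / (Sc : ℝ) + 2 * (Real.cos x * z)) (2 * (Real.sin x * w))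
    have h5 := abs_add_le (2 * (z * w) / (Sc : ℝ)) (2 * (Real.cos x * z))
    linarith

end Pool.Agent.IVL
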