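import Pool.Agent.IVL.Cs

namespace Pool.Agent.IVL

theorem ge_of_deriv (f f' : ℝ → ℝ) (hf : ∀ y, HasDerivAt f (f' y) y)
    (hs : ∀ y, 0 ≤ f' y * y) (h : ℝ) : f 0 ≤ f h := by
  rcases lt_trichotomy h 0 with hh | hh | hh
  · obtain ⟨c, hc, he⟩ := exists_hasDerivAt_eq_slope f f' hh
      (fun y _ => (hf y).continuousAt.continuousWithinAt) (fun y _ => hf y)
    have h1 := hs c
    have h2 : f' c ≤ 0 := by
      by_contra h3
      push Not at h3
      have : f' c * c < 0 := mul_neg_of_pos_of_neg h3 hc.2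
      linarith
    rw [he] at h2
    have h4 : 0 < 0 - h := by linarith
    rw [div_nonpos_iff] at h2
    rcases h2 with h2 | h2
    · linarith [h2.2]
    · linarith [h2.1]
  · rw [hh]
  · obtain ⟨c, hc, he⟩ := exists_hasDerivAt_eq_slope f f' hh
      (fun y _ => (hf y).continuousAt.continuousWithinAt) (fun y _ => hf y)
    have h1 := hs c
    have h2 : 0 ≤ f' c := by
      by_contra h3
      push Not at h3
      have : f' c * c < 0 := mul_neg_of_neg_of_pos h3 hc.1
      linarith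
    rw [he] at h2
    have h4 : 0 < h - 0 := by linarith
    rw [div_nonneg_iff] at h2
    rcases h2 with h2 | h2
    · linarith [h2.1]
    · linarith [h2.2]

theorem quad_bound (f f' : ℝ → ℝ) (hf : ∀ y, HasDerivAt f (f' y) y)
    (hl : ∀ y z, |f' y - f' z| ≤ |y - z|) (x h : ℝ) :
    |f (x + h) - f x - h * f' x| ≤ h ^ 2 / 2 := by
  have hd : ∀ s : ℝ, HasDerivAt (fun s => f (x + s) - f x - s * f' x) (f' (x + s) - f' x) s := by
    intro s
    have h1 : HasDerivAt (fun s => f (x + s)) (f' (x + s)) s := by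
      have := (hf (x + s)).comp_const_add x s
      exact this
    have h2 : HasDerivAt (fun s : ℝ => s * f' x) (f' x) s := by
      simpa using (hasDerivAt_id s).mul_const (f' x)
    exact (h1.sub_const (f x)).sub h2
  have hsq : ∀ s : ℝ, HasDerivAt (fun s : ℝ => s ^ 2 / 2) s s := by
    intro s
    have h1 := (hasDerivAt_pow 2 s).div_const 2
    have e : ((2 : ℕ) : ℝ) * s ^ (2 - 1) / 2 = s := by
      norm_num
    rw [e] at h1
    exact h1
  have hb : ∀ s : ℝ, |(f' (x + s) - f' x) * s| ≤ s * s := by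
    intro s
    rw [abs_mul]
    have h1 := hl (x + s) x
    have h2 : x + s - x = s := by ring
    rw [h2] at h1
    calc |f' (x + s) - f' x| * |s| ≤ |s| * |s| := by gcongr
      _ = s * s := abs_mul_abs_self s
  rw [abs_le]
  constructor
  · have h1 := ge_of_deriv (fun s => s ^ 2 / 2 + (f (x + s) - f x - s * f' x))
      (fun s => s + (f' (x + s) - f' x)) (fun s => (hsq s).add (hd s)) (by
        intro s
        have h2 := hb s
        rw [abs_le] at h2
        nlinarith [h2.1]) h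
    beta_reduce at h1
    rw [add_zero] at h1
    nlinarith [h1]
  · have h1 := ge_of_deriv (fun s => s ^ 2 / 2 - (f (x + s) - f x - s * f' x))
      (fun s => s - (f' (x + s) - f' x)) (fun s => (hsq s).sub (hd s)) (by
        intro s
        have h2 := hb s
        rw [abs_le] at h2
        nlinarith [h2.2]) h
    beta_reduce at h1
    rw [add_zero] at h1
    nlinarith [h1]

theorem abs_cos_sub_cos_le (y z : ℝ) : |Real.cos y - Real.cos z| ≤ |y - z| := by
  have h := Real.cos_sub_cos y z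
  rw [h]
  have h1 : |Real.sin ((y - z) / 2)| ≤ |(y - z) / 2| := Real.abs_sin_le_abs
  have h2 : |Real.sin ((y + z) / 2)| ≤ 1 := Real.abs_sin_le_one _
  rw [abs_mul, abs_mul, abs_neg, abs_of_pos (by norm_num : (0 : ℝ) < 2)]
  have h3 : |(y - z) / 2| = |y - z| / 2 := by
    rw [abs_div, abs_of_pos (by norm_num : (0 : ℝ) < 2)]
  rw [h3] at h1
  calc 2 * |Real.sin ((y + z) / 2)| * |Real.sin ((y - z) / 2)|
      ≤ 2 * 1 * (|y - z| / 2) := by gcongr
    _ = |y - z| := by ring

theorem abs_sin_sub_sin_le (y z : ℝ) : |Real.sin y - Real.sin z| ≤ |y - z| := by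
  have h := Real.sin_sub_sin y z
  rw [h]
  have h1 : |Real.sin ((y - z) / 2)| ≤ |(y - z) / 2| := Real.abs_sin_le_abs
  have h2 : |Real.cos ((y + z) / 2)| ≤ 1 := Real.abs_cos_le_one _
  rw [abs_mul, abs_mul, abs_of_pos (by norm_num : (0 : ℝ) < 2)]
  have h3 : |(y - z) / 2| = |y - z| / 2 := by
    rw [abs_div, abs_of_pos (by norm_num : (0 : ℝ) < 2)]
  rw [h3] at h1
  calc 2 * |Real.sin ((y - z) / 2)| * |Real.cos ((y + z) / 2)|
      ≤ 2 * (|y - z| / 2) * 1 := by gcongr
    _ = |y - z| := by ring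

theorem cos_quad (x h : ℝ) : |Real.cos (x + h) - Real.cos x + h * Real.sin x| ≤ h ^ 2 / 2 := by
  have h1 := quad_bound Real.cos (fun y => -Real.sin y) (fun y => Real.hasDerivAt_cos y) (by
    intro y z
    have := abs_sin_sub_sin_le y z
    rw [← abs_neg] at this
    convert this using 2
    ring) x h
  convert h1 using 2
  ring

theorem sin_quad (x h : ℝ) : |Real.sin (x + h) - Real.sin x - h * Real.cos x| ≤ h ^ 2 / 2 :=
  quad_bound Real.sin Real.cos (fun y => Real.hasDerivAt_sin y) abs_cos_sub_cos_le x h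

/-- cosine and sine of `M / S`. -/
noncomputable def cs3 {β : Type} (M : Nat) (k : Z → Z → β) : β :=
  Z.fcN (uN M) (fun U => Z.fcN (hC U) (fun C => Z.fcN (sN M (hQ U)) (fun s =>
    Z.fc (dbC (Z.p C)) (fun c1 => Z.fc (dbS (Z.p C) (Z.p s)) (fun s1 =>
      Z.fc (dbC c1) (fun c2 => Z.fc (dbS c1 s1) (fun s2 =>
        Z.fc (dbC c2) (fun c3 => Z.fc (dbS c2 s2) (fun s3 => k c3 s3)))))))))

theorem cs3_spec {β : Type} (M : Nat) (k : Z → Z → β) (hM : M ≤ 8796093022208) :
    ∃ c s, cs3 M k = k c s ∧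
      |c.v - Real.cos ((M : ℝ) / (Sc : ℝ)) * (Sc : ℝ)| ≤ 1300 ∧
      |s.v - Real.sin ((M : ℝ) / (Sc : ℝ)) * (Sc : ℝ)| ≤ 1300 := by
  have hS := Sc_pos
  refine ⟨dbC (dbC (dbC (Z.p (hC (uN M))))), dbS (dbC (dbC (Z.p (hC (uN M)))))
    (dbS (dbC (Z.p (hC (uN M)))) (dbS (Z.p (hC (uN M))) (Z.p (sN M (hQ (uN M)))))), ?_, ?_⟩
  · unfold cs3
    simp only [Z.fcN_eq, Z.fc_eq]
  · obtain ⟨a1, a2⟩ := cs8 M hM
    obtain ⟨b1, b2⟩ := dbl_spec (Z.p (hC (uN M))) (Z.p (sN M (hQ (uN M))))
      ((M : ℝ) / (8 * (Sc : ℝ))) 19 (by norm_num) (by norm_num)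
      (by rw [Z.v_p]; linarith) (by rw [Z.v_p]; exact a2)
    obtain ⟨c1, c2⟩ := dbl_spec _ _ _ _ (by norm_num) (by norm_num) b1 b2
    obtain ⟨d1, d2⟩ := dbl_spec _ _ _ _ (by norm_num) (by norm_num) c1 c2
    have e : 2 * (2 * (2 * ((M : ℝ) / (8 * (Sc : ℝ))))) = (M : ℝ) / (Sc : ℝ) := by
      field_simp
      ring
    rw [e] at d1 d2
    constructor
    · linarith
    · linarith

namespace AF

/-- The error of cosine / sine. -/
noncomputable def trE (l e : Nat) : Nat :=
  Nat.add (Nat.add e 1310) (Nat.div (Nat.add (Nat.mul 2600 l)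
    (Nat.mul (Nat.add l e) (Nat.add l e))) 2199023255552)

/-- cosine and sine, with continuation -/
noncomputable def csK {β : Type} (a : AF) (k : AF → AF → β) : β :=
  AF.rec (fun x0 x1 x2 x3 e =>
    Bool.rec (k (mk (Z.p 0) (Z.p 0) (Z.p 0) (Z.p 0) 1099511627776)
        (mk (Z.p 0) (Z.p 0) (Z.p 0) (Z.p 0) 1099511627776))
      (cs3 x0.m (fun c s' => Z.fc (Z.rec (fun _ => s') (fun _ => s'.neg) x0) (fun s =>
        Z.fcN (trE (lm x1 x2 x3) e) (fun E =>
          mkK c (dS (Z.mul s.neg x1)) (dS (Z.mul s.neg x2)) (dS (Z.mul s.neg x3)) E (fun A =>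
            mkK s (dS (Z.mul c x1)) (dS (Z.mul c x2)) (dS (Z.mul c x3)) E (fun B => k A B))))))
      (Nat.ble x0.m 8796093022208)) a

theorem csK_spec {β : Type} (a : AF) (k : AF → AF → β) : ∃ c s, csK a k = k c s ∧
    ∀ t r, R t a r → R t c (Real.cos r) ∧ R t s (Real.sin r) := by
  have hS := Sc_pos
  have hSv := Sc_val
  cases a with
  | mk x0 x1 x2 x3 e =>
    by_cases hM : x0.m ≤ 8796093022208
    · have hb : Nat.ble x0.m 8796093022208 = true := by simpa using hM
      obtain ⟨c, s', h1, h2, h3⟩ := cs3_spec x0.m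
        (fun c s' => Z.fc (Z.rec (fun _ => s') (fun _ => s'.neg) x0) (fun s =>
        Z.fcN (trE (lm x1 x2 x3) e) (fun E =>
          mkK c (dS (Z.mul s.neg x1)) (dS (Z.mul s.neg x2)) (dS (Z.mul s.neg x3)) E (fun A =>
            mkK s (dS (Z.mul c x1)) (dS (Z.mul c x2)) (dS (Z.mul c x3)) E (fun B => k A B))))) hM
      obtain ⟨s, hs⟩ : ∃ s : Z, s = Z.rec (fun _ => s') (fun _ => s'.neg) x0 := ⟨_, rfl⟩
      refine ⟨mk c (dS (Z.mul s.neg x1)) (dS (Z.mul s.neg x2)) (dS (Z.mul s.neg x3))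
        (trE (lm x1 x2 x3) e), mk s (dS (Z.mul c x1)) (dS (Z.mul c x2)) (dS (Z.mul c x3))
        (trE (lm x1 x2 x3) e), ?_, ?_⟩
      · unfold csK
        simp only [hb]
        rw [h1]
        simp only [Z.fc_eq, Z.fcN_eq, mkK_eq]
        rw [← hs]
      · -- the values
        have hcv : |c.v - Real.cos (x0.v / (Sc : ℝ)) * (Sc : ℝ)| ≤ 1300 := by
          cases x0 with
          | p a => simpa using h2
          | n a =>
            have : (Z.n a).v / (Sc : ℝ) = -((a : ℝ) / (Sc : ℝ)) := by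
              rw [Z.v_n]; ring
            rw [this, Real.cos_neg]
            simpa using h2
        have hsv : |s.v - Real.sin (x0.v / (Sc : ℝ)) * (Sc : ℝ)| ≤ 1300 := by
          cases x0 with
          | p a =>
            have hs2 : s = s' := hs
            rw [hs2]
            simpa using h3
          | n a =>
            have hs2 : s = s'.neg := hs
            have : (Z.n a).v / (Sc : ℝ) = -((a : ℝ) / (Sc : ℝ)) := by
              rw [Z.v_n]; ring
            rw [hs2, this, Real.sin_neg, Z.v_neg]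
            have e4 : -s'.v - -Real.sin ((a : ℝ) / (Sc : ℝ)) * (Sc : ℝ)
                = -(s'.v - Real.sin ((a : ℝ) / (Sc : ℝ)) * (Sc : ℝ)) := by ring
            rw [e4, abs_neg]
            simpa using h3
        intro t r hr
        rw [R_mk] at hr
        have lx := abs_L_le t x1 x2 x3
        obtain ⟨E, hE⟩ : ∃ E, E = r * (Sc : ℝ) - (x0.v + L t x1 x2 x3) := ⟨_, rfl⟩
        rw [← hE] at hr
        have hr2 : r = x0.v / (Sc : ℝ) + (L t x1 x2 x3 + E) / (Sc : ℝ) := by
          rw [hE]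
          field_simp
          ring
        have hh2 : ((L t x1 x2 x3 + E) / (Sc : ℝ)) ^ 2 / 2 * (Sc : ℝ)
            ≤ ((lm x1 x2 x3 : ℝ) + e) * ((lm x1 x2 x3 : ℝ) + e) / (2 * (Sc : ℝ)) := by
          have d1 : |L t x1 x2 x3 + E| ≤ (lm x1 x2 x3 : ℝ) + e :=
            (abs_add_le _ _).trans (add_le_add lx hr)
          have d2 : (L t x1 x2 x3 + E) ^ 2 ≤ ((lm x1 x2 x3 : ℝ) + e) * ((lm x1 x2 x3 : ℝ) + e) := by
            rw [← sq_abs, sq]
            exact mul_le_mul d1 d1 (abs_nonneg _) (by positivity)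
          have e6 : ((L t x1 x2 x3 + E) / (Sc : ℝ)) ^ 2 / 2 * (Sc : ℝ)
              = (L t x1 x2 x3 + E) ^ 2 / (2 * (Sc : ℝ)) := by
            field_simp
          rw [e6]
          gcongr
        have hup : ((Nat.add (Nat.mul 2600 (lm x1 x2 x3))
            (Nat.mul (Nat.add (lm x1 x2 x3) e) (Nat.add (lm x1 x2 x3) e)) : Nat) : ℝ)
              / (2 * (Sc : ℝ))
            ≤ ((Nat.div (Nat.add (Nat.mul 2600 (lm x1 x2 x3))
            (Nat.mul (Nat.add (lm x1 x2 x3) e) (Nat.add (lm x1 x2 x3) e))) 2199023255552 : Nat) : ℝ)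
              + 1 := by
          have h := Z.nat_div_err (Nat.add (Nat.mul 2600 (lm x1 x2 x3))
            (Nat.mul (Nat.add (lm x1 x2 x3) e) (Nat.add (lm x1 x2 x3) e))) 2199023255552
            (by norm_num)
          have e7 : (((2199023255552 : Nat) : ℝ)) = 2 * (Sc : ℝ) := by
            rw [hSv]
            norm_num
          rw [e7] at h
          rw [abs_le] at h
          have h1 := h.1
          change -1 ≤ ((Nat.div (Nat.add (Nat.mul 2600 (lm x1 x2 x3))
            (Nat.mul (Nat.add (lm x1 x2 x3) e) (Nat.add (lm x1 x2 x3) e))) 2199023255552 : Nat) : ℝ)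
            - _ at h1
          linarith
        have hsplit : ((Nat.add (Nat.mul 2600 (lm x1 x2 x3))
            (Nat.mul (Nat.add (lm x1 x2 x3) e) (Nat.add (lm x1 x2 x3) e)) : Nat) : ℝ)
              / (2 * (Sc : ℝ)) = 1300 * (lm x1 x2 x3 : ℝ) / (Sc : ℝ)
              + ((lm x1 x2 x3 : ℝ) + e) * ((lm x1 x2 x3 : ℝ) + e) / (2 * (Sc : ℝ)) := by
          simp only [Nat.add_eq, Nat.mul_eq]
          push_cast
          field_simp
          ring
        have hEv : ((trE (lm x1 x2 x3) e : Nat) : ℝ) = (e : ℝ) + 1310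
            + ((Nat.div (Nat.add (Nat.mul 2600 (lm x1 x2 x3))
            (Nat.mul (Nat.add (lm x1 x2 x3) e) (Nat.add (lm x1 x2 x3) e))) 2199023255552 : Nat) : ℝ)
              := by
          unfold trE
          simp only [Nat.add_eq]
          push_cast
          rfl
        have c1 := dS_err (Z.mul s.neg x1)
        have c2 := dS_err (Z.mul s.neg x2)
        have c3 := dS_err (Z.mul s.neg x3)
        have cL := L_err t _ _ _ _ _ _ c1 c2 c3
        have s1 := dS_err (Z.mul c x1)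
        have s2 := dS_err (Z.mul c x2)
        have s3 := dS_err (Z.mul c x3)
        have sL := L_err t _ _ _ _ _ _ s1 s2 s3
        have linc : (Z.mul s.neg x1).v / (Sc : ℝ) * t.t1 + (Z.mul s.neg x2).v / (Sc : ℝ) * t.t2
            + (Z.mul s.neg x3).v / (Sc : ℝ) * t.t3 = -(s.v * L t x1 x2 x3 / (Sc : ℝ)) := by
          simp only [Z.v_mul, Z.v_neg]
          unfold L
          ring
        have lins : (Z.mul c x1).v / (Sc : ℝ) * t.t1 + (Z.mul c x2).v / (Sc : ℝ) * t.t2
            + (Z.mul c x3).v / (Sc : ℝ) * t.t3 = c.v * L t x1 x2 x3 / (Sc : ℝ) := by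
          simp only [Z.v_mul]
          unfold L
          ring
        rw [linc] at cL
        rw [lins] at sL
        have cq := cos_quad (x0.v / (Sc : ℝ)) ((L t x1 x2 x3 + E) / (Sc : ℝ))
        have sq := sin_quad (x0.v / (Sc : ℝ)) ((L t x1 x2 x3 + E) / (Sc : ℝ))
        rw [← hr2] at cq sq
        obtain ⟨C0, hC0⟩ : ∃ C0, C0 = Real.cos (x0.v / (Sc : ℝ)) := ⟨_, rfl⟩
        obtain ⟨S0, hS0⟩ : ∃ S0, S0 = Real.sin (x0.v / (Sc : ℝ)) := ⟨_, rfl⟩
        rw [← hC0] at hcv
        rw [← hS0] at hsv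
        rw [← hC0, ← hS0] at cq sq
        have C01 : |C0| ≤ 1 := by rw [hC0]; exact Real.abs_cos_le_one _
        have S01 : |S0| ≤ 1 := by rw [hS0]; exact Real.abs_sin_le_one _
        -- abstract
        obtain ⟨l, hl⟩ : ∃ l, l = L t x1 x2 x3 := ⟨_, rfl⟩
        rw [← hl] at cq sq cL sL lx hh2
        have cqS : |(Real.cos r - C0 + (l + E) / (Sc : ℝ) * S0) * (Sc : ℝ)|
            ≤ ((lm x1 x2 x3 : ℝ) + e) * ((lm x1 x2 x3 : ℝ) + e) / (2 * (Sc : ℝ)) := by
          rw [abs_mul, abs_of_pos hS]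
          calc _ ≤ ((l + E) / (Sc : ℝ)) ^ 2 / 2 * (Sc : ℝ) := by gcongr
            _ ≤ _ := hh2
        have sqS : |(Real.sin r - S0 - (l + E) / (Sc : ℝ) * C0) * (Sc : ℝ)|
            ≤ ((lm x1 x2 x3 : ℝ) + e) * ((lm x1 x2 x3 : ℝ) + e) / (2 * (Sc : ℝ)) := by
          rw [abs_mul, abs_of_pos hS]
          calc _ ≤ ((l + E) / (Sc : ℝ)) ^ 2 / 2 * (Sc : ℝ) := by gcongr
            _ ≤ _ := hh2
        have mE1 : |S0 * E| ≤ (e : ℝ) := by
          rw [abs_mul]
          calc |S0| * |E| ≤ 1 * (e : ℝ) := by gcongr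
            _ = e := one_mul _
        have mE2 : |C0 * E| ≤ (e : ℝ) := by
          rw [abs_mul]
          calc |C0| * |E| ≤ 1 * (e : ℝ) := by gcongr
            _ = e := one_mul _
        have ml1 : |(s.v - S0 * (Sc : ℝ)) * l / (Sc : ℝ)| ≤ 1300 * (lm x1 x2 x3 : ℝ) / (Sc : ℝ) := by
          rw [abs_div, abs_of_pos hS, abs_mul]
          gcongr
        have ml2 : |(c.v - C0 * (Sc : ℝ)) * l / (Sc : ℝ)| ≤ 1300 * (lm x1 x2 x3 : ℝ) / (Sc : ℝ) := by
          rw [abs_div, abs_of_pos hS, abs_mul]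
          gcongr
        rw [R_mk, R_mk, hEv]
        rw [hsplit] at hup
        constructor
        · have e9 : Real.cos r * (Sc : ℝ) - (c.v + L t (dS (Z.mul s.neg x1)) (dS (Z.mul s.neg x2))
              (dS (Z.mul s.neg x3)))
              = (Real.cos r - C0 + (l + E) / (Sc : ℝ) * S0) * (Sc : ℝ)
                + (-(c.v - C0 * (Sc : ℝ)) + (-(L t (dS (Z.mul s.neg x1)) (dS (Z.mul s.neg x2))
              (dS (Z.mul s.neg x3)) - -(s.v * l / (Sc : ℝ))) + (-(S0 * E)
                + (s.v - S0 * (Sc : ℝ)) * l / (Sc : ℝ)))) := by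
            field_simp
            ring
          rw [e9]
          have g1 := abs_add_le ((Real.cos r - C0 + (l + E) / (Sc : ℝ) * S0) * (Sc : ℝ))
            (-(c.v - C0 * (Sc : ℝ)) + (-(L t (dS (Z.mul s.neg x1)) (dS (Z.mul s.neg x2))
              (dS (Z.mul s.neg x3)) - -(s.v * l / (Sc : ℝ))) + (-(S0 * E)
                + (s.v - S0 * (Sc : ℝ)) * l / (Sc : ℝ))))
          have g2 := abs_add_le (-(c.v - C0 * (Sc : ℝ)))
            (-(L t (dS (Z.mul s.neg x1)) (dS (Z.mul s.neg x2))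
              (dS (Z.mul s.neg x3)) - -(s.v * l / (Sc : ℝ))) + (-(S0 * E)
                + (s.v - S0 * (Sc : ℝ)) * l / (Sc : ℝ)))
          have g3 := abs_add_le (-(L t (dS (Z.mul s.neg x1)) (dS (Z.mul s.neg x2))
              (dS (Z.mul s.neg x3)) - -(s.v * l / (Sc : ℝ)))) (-(S0 * E)
                + (s.v - S0 * (Sc : ℝ)) * l / (Sc : ℝ))
          have g4 := abs_add_le (-(S0 * E)) ((s.v - S0 * (Sc : ℝ)) * l / (Sc : ℝ))
          rw [abs_neg] at g2 g3 g4
          linarith
        · have e9 : Real.sin r * (Sc : ℝ) - (s.v + L t (dS (Z.mul c x1)) (dS (Z.mul c x2))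
              (dS (Z.mul c x3)))
              = (Real.sin r - S0 - (l + E) / (Sc : ℝ) * C0) * (Sc : ℝ)
                + (-(s.v - S0 * (Sc : ℝ)) + (-(L t (dS (Z.mul c x1)) (dS (Z.mul c x2))
              (dS (Z.mul c x3)) - c.v * l / (Sc : ℝ)) + (C0 * E
                + -((c.v - C0 * (Sc : ℝ)) * l / (Sc : ℝ))))) := by
            field_simp
            ring
          rw [e9]
          have g1 := abs_add_le ((Real.sin r - S0 - (l + E) / (Sc : ℝ) * C0) * (Sc : ℝ))
            (-(s.v - S0 * (Sc : ℝ)) + (-(L t (dS (Z.mul c x1)) (dS (Z.mul c x2))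
              (dS (Z.mul c x3)) - c.v * l / (Sc : ℝ)) + (C0 * E
                + -((c.v - C0 * (Sc : ℝ)) * l / (Sc : ℝ)))))
          have g2 := abs_add_le (-(s.v - S0 * (Sc : ℝ)))
            (-(L t (dS (Z.mul c x1)) (dS (Z.mul c x2))
              (dS (Z.mul c x3)) - c.v * l / (Sc : ℝ)) + (C0 * E
                + -((c.v - C0 * (Sc : ℝ)) * l / (Sc : ℝ))))
          have g3 := abs_add_le (-(L t (dS (Z.mul c x1)) (dS (Z.mul c x2))
              (dS (Z.mul c x3)) - c.v * l / (Sc : ℝ))) (C0 * E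
                + -((c.v - C0 * (Sc : ℝ)) * l / (Sc : ℝ)))
          have g4 := abs_add_le (C0 * E) (-((c.v - C0 * (Sc : ℝ)) * l / (Sc : ℝ)))
          rw [abs_neg] at g2 g3 g4
          linarith
    · have hb : Nat.ble x0.m 8796093022208 = false := by
        rw [Bool.eq_false_iff]
        intro h2
        exact hM (by simpa using h2)
      refine ⟨mk (Z.p 0) (Z.p 0) (Z.p 0) (Z.p 0) 1099511627776,
        mk (Z.p 0) (Z.p 0) (Z.p 0) (Z.p 0) 1099511627776, ?_, ?_⟩
      · unfold csK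
        simp only [hb]
      · intro t r _
        have e1 : ((1099511627776 : Nat) : ℝ) = (Sc : ℝ) := by rw [hSv]; norm_num
        rw [R_mk, R_mk, e1]
        have hL0 : L t (Z.p 0) (Z.p 0) (Z.p 0) = 0 := by
          unfold L
          simp
        rw [hL0, Z.v_p]
        simp only [Nat.cast_zero, add_zero, sub_zero]
        rw [abs_mul, abs_mul, abs_of_pos hS]
        constructor
        · have := Real.abs_cos_le_one r
          nlinarith
        · have := Real.abs_sin_le_one r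
          nlinarith

end AF

end Pool.Agent.IVL
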