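import Pool.Agent.IVL.Check

/-!
Example of use of the interval library: a spherical triangle with angles `a`, `b`, `c` in
`[0.95, 1.95]` whose sides are all at least 60 degrees has angle sum at least `pi + 0.54`
(here: `3.6815926`).  The sides enter through
`cos (side_k) sin a sin b = cos c + cos a cos b`.
-/

namespace Pool.Agent.IVL.Example

open AF

/-- The boolean test on one box: one of four quantities is positive on the whole box. -/
noncomputable def T (c1 : Z) (w1 : Nat) (c2 : Z) (w2 : Nat) (c3 : Z) (w3 : Nat) : Bool :=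
  addK (var1 c1 w1) (var2 c2 w2) fun s2 => addK s2 (var3 c3 w3) fun s3 =>
  subK s3 (cst (Z.p 4047962000000) 1) fun s =>
  orB (posB s) (
  csK (var1 c1 w1) fun ca sa => csK (var2 c2 w2) fun cb sb => csK (var3 c3 w3) fun cc sc =>
  mulK ca cb fun cab => mulK sa sb fun sab => smK (Z.p 1) 2 sab fun hab =>
  addK cc cab fun u => subK u hab fun g1 => orB (posB g1) (
  mulK ca cc fun cac => mulK sa sc fun sac => smK (Z.p 1) 2 sac fun hac =>
  addK cb cac fun u => subK u hac fun g2 => orB (posB g2) (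
  mulK cb cc fun cbc => mulK sb sc fun sbc => smK (Z.p 1) 2 sbc fun hbc =>
  addK ca cbc fun u => subK u hbc fun g3 => posB g3)))

/-- The property. -/
def P (x y z : ℝ) : Prop :=
  3.68159 < x + y + z ∨
  0 < Real.cos z + Real.cos x * Real.cos y - 1 / 2 * (Real.sin x * Real.sin y) ∨
  0 < Real.cos y + Real.cos x * Real.cos z - 1 / 2 * (Real.sin x * Real.sin z) ∨
  0 < Real.cos x + Real.cos y * Real.cos z - 1 / 2 * (Real.sin y * Real.sin z)

theorem T_sound (c1 : Z) (w1 : Nat) (c2 : Z) (w2 : Nat) (c3 : Z) (w3 : Nat)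
    (h : T c1 w1 c2 w2 c3 w3 = true) (x y z : ℝ) (hb : InBox c1 w1 c2 w2 c3 w3 x y z) :
    P x y z := by
  obtain ⟨t, hx, hy, hz⟩ := vars_spec c1 c2 c3 w1 w2 w3 x y z hb.1 hb.2.1 hb.2.2
  unfold T at h
  obtain ⟨a1, e1, r1⟩ := addK_spec (var1 c1 w1) (var2 c2 w2) _
  rw [e1] at h
  replace r1 := r1 t _ _ hx hy
  obtain ⟨a2, e2, r2⟩ := addK_spec a1 (var3 c3 w3) _
  rw [e2] at h
  replace r2 := r2 t _ _ r1 hz
  obtain ⟨a3, e3, r3⟩ := subK_spec a2 (cst (Z.p 4047962000000) 1) _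
  rw [e3] at h
  have hc : R t (cst (Z.p 4047962000000) 1) (4047962000000 / 1099511627776) := by
    apply cst_spec
    rw [Sc_val, Z.v_p]
    norm_num
  replace r3 := r3 t _ _ r2 hc
  rcases orB_eq _ _ h with h | h
  · left
    have := posB_spec _ h t _ r3
    have h4 : (3.68159 : ℝ) ≤ 4047962000000 / 1099511627776 := by norm_num
    linarith
  right
  obtain ⟨ca, sa, e4, r4⟩ := csK_spec (var1 c1 w1) _
  rw [e4] at h
  obtain ⟨q1, q2⟩ := r4 t _ hx
  obtain ⟨cb, sb, e5, r5⟩ := csK_spec (var2 c2 w2) _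
  rw [e5] at h
  obtain ⟨q3, q4⟩ := r5 t _ hy
  obtain ⟨cc, sc, e6, r6⟩ := csK_spec (var3 c3 w3) _
  rw [e6] at h
  obtain ⟨q5, q6⟩ := r6 t _ hz
  obtain ⟨cab, f1, m1⟩ := mulK_spec ca cb _
  rw [f1] at h
  replace m1 := m1 t _ _ q1 q3
  obtain ⟨sab, f2, m2⟩ := mulK_spec sa sb _
  rw [f2] at h
  replace m2 := m2 t _ _ q2 q4
  obtain ⟨hab, f3, m3⟩ := smK_spec (Z.p 1) 2 (by norm_num) sab _
  rw [f3] at h
  replace m3 := m3 t _ m2
  obtain ⟨u1, f4, m4⟩ := addK_spec cc cab _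
  rw [f4] at h
  replace m4 := m4 t _ _ q5 m1
  obtain ⟨g1, f5, m5⟩ := subK_spec u1 hab _
  rw [f5] at h
  replace m5 := m5 t _ _ m4 m3
  rcases orB_eq _ _ h with h | h
  · left
    have := posB_spec _ h t _ m5
    simpa using this
  right
  obtain ⟨cac, f6, m6⟩ := mulK_spec ca cc _
  rw [f6] at h
  replace m6 := m6 t _ _ q1 q5
  obtain ⟨sac, f7, m7⟩ := mulK_spec sa sc _
  rw [f7] at h
  replace m7 := m7 t _ _ q2 q6
  obtain ⟨hac, f8, m8⟩ := smK_spec (Z.p 1) 2 (by norm_num) sac _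
  rw [f8] at h
  replace m8 := m8 t _ m7
  obtain ⟨u2, f9, m9⟩ := addK_spec cb cac _
  rw [f9] at h
  replace m9 := m9 t _ _ q3 m6
  obtain ⟨g2, f10, m10⟩ := subK_spec u2 hac _
  rw [f10] at h
  replace m10 := m10 t _ _ m9 m8
  rcases orB_eq _ _ h with h | h
  · left
    have := posB_spec _ h t _ m10
    simpa using this
  right
  obtain ⟨cbc, f11, m11⟩ := mulK_spec cb cc _
  rw [f11] at h
  replace m11 := m11 t _ _ q3 q5
  obtain ⟨sbc, f12, m12⟩ := mulK_spec sb sc _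
  rw [f12] at h
  replace m12 := m12 t _ _ q4 q6
  obtain ⟨hbc, f13, m13⟩ := smK_spec (Z.p 1) 2 (by norm_num) sbc _
  rw [f13] at h
  replace m13 := m13 t _ m12
  obtain ⟨u3, f14, m14⟩ := addK_spec ca cbc _
  rw [f14] at h
  replace m14 := m14 t _ _ q1 m11
  obtain ⟨g3, f15, m15⟩ := subK_spec u3 hbc _
  rw [f15] at h
  replace m15 := m15 t _ _ m14 m13
  have := posB_spec _ h t _ m15
  simpa using this

set_option maxRecDepth 100000 in
theorem run : check T 26 (Z.p 1594291860275) 549755813889 (Z.p 1594291860275) 549755813889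
    (Z.p 1594291860275) 549755813889 = true := by decide +kernel

theorem area_ineq (x y z : ℝ) (hx : 0.95 ≤ x ∧ x ≤ 1.95) (hy : 0.95 ≤ y ∧ y ≤ 1.95)
    (hz : 0.95 ≤ z ∧ z ≤ 1.95) : P x y z := by
  have key : ∀ u : ℝ, 0.95 ≤ u ∧ u ≤ 1.95 →
      |u * (Sc : ℝ) - (Z.p 1594291860275).v| ≤ ((549755813889 : Nat) : ℝ) := by
    intro u hu
    rw [Sc_val, Z.v_p, abs_le]
    push_cast
    constructor
    · linarith [hu.1]
    · linarith [hu.2]
  exact check_spec T P T_sound 26 _ _ _ _ _ _ run x y z ⟨key x hx, key y hy, key z hz⟩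

end Pool.Agent.IVL.Example
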