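import Pool.Agent.IVL.AF

namespace Pool.Agent.IVL

namespace AF

/-- division by the scale -/
noncomputable def dS (x : Z) : Z := Z.dv 1099511627776 x

theorem dS_err (x : Z) : |(dS x).v - x.v / (Sc : ℝ)| ≤ 1 := by
  have h := Z.dv_err 1099511627776 (by norm_num) x
  have e : (((1099511627776 : Nat) : ℝ)) = (Sc : ℝ) := by
    unfold Sc
    norm_num
  rw [e] at h
  exact h

/-- Rounded up quotient by the scale (plus slack). -/
theorem nat_up (a : Nat) : (a : ℝ) / (Sc : ℝ) ≤ ((Nat.div a 1099511627776 : Nat) : ℝ) + 1 := by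
  have h := Z.nat_div_err a 1099511627776 (by norm_num)
  have e : (((1099511627776 : Nat) : ℝ)) = (Sc : ℝ) := by
    unfold Sc
    norm_num
  rw [e] at h
  rw [abs_le] at h
  have h1 := h.1
  have h2 : ((a / 1099511627776 : Nat) : ℝ) = ((Nat.div a 1099511627776 : Nat) : ℝ) := rfl
  rw [h2] at h1
  linarith

theorem L_err (t : PT) (x1 x2 x3 : Z) (u1 u2 u3 : ℝ) (h1 : |x1.v - u1| ≤ 1)
    (h2 : |x2.v - u2| ≤ 1) (h3 : |x3.v - u3| ≤ 1) :
    |L t x1 x2 x3 - (u1 * t.t1 + u2 * t.t2 + u3 * t.t3)| ≤ 3 := by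
  have e : L t x1 x2 x3 - (u1 * t.t1 + u2 * t.t2 + u3 * t.t3)
      = (x1.v - u1) * t.t1 + (x2.v - u2) * t.t2 + (x3.v - u3) * t.t3 := by
    unfold L
    ring
  rw [e]
  have a1 : |(x1.v - u1) * t.t1| ≤ 1 := by
    rw [abs_mul]
    exact mul_le_one₀ h1 (abs_nonneg _) t.h1
  have a2 : |(x2.v - u2) * t.t2| ≤ 1 := by
    rw [abs_mul]
    exact mul_le_one₀ h2 (abs_nonneg _) t.h2
  have a3 : |(x3.v - u3) * t.t3| ≤ 1 := by
    rw [abs_mul]
    exact mul_le_one₀ h3 (abs_nonneg _) t.h3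
  have b1 := abs_add_le ((x1.v - u1) * t.t1 + (x2.v - u2) * t.t2) ((x3.v - u3) * t.t3)
  have b2 := abs_add_le ((x1.v - u1) * t.t1) ((x2.v - u2) * t.t2)
  linarith

/-- The error of a product. -/
noncomputable def mulE (x0 y0 : Z) (lx ly e f : Nat) : Nat :=
  Nat.add (Nat.div (Nat.add (Nat.add (Nat.mul x0.m f) (Nat.mul y0.m e))
    (Nat.mul (Nat.add lx e) (Nat.add ly f))) 1099511627776) 5

/-- Multiplication, with continuation. -/
noncomputable def mulK {β : Type} (a b : AF) (k : AF → β) : β :=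
  AF.rec (fun x0 x1 x2 x3 e => AF.rec (fun y0 y1 y2 y3 f =>
    mkK (dS (Z.mul x0 y0)) (dS (Z.add (Z.mul x0 y1) (Z.mul y0 x1)))
      (dS (Z.add (Z.mul x0 y2) (Z.mul y0 x2))) (dS (Z.add (Z.mul x0 y3) (Z.mul y0 x3)))
      (mulE x0 y0 (lm x1 x2 x3) (lm y1 y2 y3) e f) k) b) a

theorem mulK_spec {β : Type} (a b : AF) (k : AF → β) : ∃ c, mulK a b k = k c ∧
    ∀ t r s, R t a r → R t b s → R t c (r * s) := by
  cases a with
  | mk x0 x1 x2 x3 e =>
    cases b with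
    | mk y0 y1 y2 y3 f =>
      refine ⟨_, mkK_eq _ _ _ _ _ _, ?_⟩
      intro t r s hr hs
      rw [R_mk] at *
      have hS := Sc_pos
      obtain ⟨E, hE⟩ : ∃ E, E = r * (Sc : ℝ) - (x0.v + L t x1 x2 x3) := ⟨_, rfl⟩
      obtain ⟨F, hF⟩ : ∃ F, F = s * (Sc : ℝ) - (y0.v + L t y1 y2 y3) := ⟨_, rfl⟩
      rw [← hE] at hr
      rw [← hF] at hs
      have h0 := dS_err (Z.mul x0 y0)
      have h1 := dS_err (Z.add (Z.mul x0 y1) (Z.mul y0 x1))
      have h2 := dS_err (Z.add (Z.mul x0 y2) (Z.mul y0 x2))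
      have h3 := dS_err (Z.add (Z.mul x0 y3) (Z.mul y0 x3))
      have hL := L_err t _ _ _ _ _ _ h1 h2 h3
      have lx := abs_L_le t x1 x2 x3
      have ly := abs_L_le t y1 y2 y3
      -- the main identity
      have key : r * s * (Sc : ℝ) = (x0.v * y0.v + x0.v * L t y1 y2 y3 + y0.v * L t x1 x2 x3
          + (x0.v * F + y0.v * E + (L t x1 x2 x3 + E) * (L t y1 y2 y3 + F))) / (Sc : ℝ) := by
        have hr' : r * (Sc : ℝ) = x0.v + L t x1 x2 x3 + E := by
          rw [hE]; ring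
        have hs' : s * (Sc : ℝ) = y0.v + L t y1 y2 y3 + F := by
          rw [hF]; ring
        rw [eq_div_iff hS.ne']
        have : r * s * (Sc : ℝ) * (Sc : ℝ) = (r * (Sc : ℝ)) * (s * (Sc : ℝ)) := by ring
        rw [this, hr', hs']
        ring
      have lin : (Z.add (Z.mul x0 y1) (Z.mul y0 x1)).v / (Sc : ℝ) * t.t1
          + (Z.add (Z.mul x0 y2) (Z.mul y0 x2)).v / (Sc : ℝ) * t.t2
          + (Z.add (Z.mul x0 y3) (Z.mul y0 x3)).v / (Sc : ℝ) * t.t3
          = (x0.v * L t y1 y2 y3 + y0.v * L t x1 x2 x3) / (Sc : ℝ) := by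
        simp only [Z.v_add, Z.v_mul]
        unfold L
        ring
      rw [lin] at hL
      have zm : (Z.mul x0 y0).v / (Sc : ℝ) = x0.v * y0.v / (Sc : ℝ) := by rw [Z.v_mul]
      rw [zm] at h0
      obtain ⟨Q, hQ⟩ : ∃ Q, Q = x0.v * F + y0.v * E
        + (L t x1 x2 x3 + E) * (L t y1 y2 y3 + F) := ⟨_, rfl⟩
      rw [← hQ] at key
      have hQb : |Q| ≤ (((Nat.add (Nat.add (Nat.mul x0.m f) (Nat.mul y0.m e))
          (Nat.mul (Nat.add (lm x1 x2 x3) e) (Nat.add (lm y1 y2 y3) f)) : Nat)) : ℝ) := by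
        rw [hQ]
        have c1 : |x0.v * F| ≤ (x0.m : ℝ) * f := by
          rw [abs_mul, Z.abs_v]
          gcongr
        have c2 : |y0.v * E| ≤ (y0.m : ℝ) * e := by
          rw [abs_mul, Z.abs_v]
          gcongr
        have c3 : |(L t x1 x2 x3 + E) * (L t y1 y2 y3 + F)|
            ≤ ((lm x1 x2 x3 : ℝ) + e) * ((lm y1 y2 y3 : ℝ) + f) := by
          rw [abs_mul]
          have d1 : |L t x1 x2 x3 + E| ≤ (lm x1 x2 x3 : ℝ) + e :=
            (abs_add_le _ _).trans (add_le_add lx hr)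
          have d2 : |L t y1 y2 y3 + F| ≤ (lm y1 y2 y3 : ℝ) + f :=
            (abs_add_le _ _).trans (add_le_add ly hs)
          exact mul_le_mul d1 d2 (abs_nonneg _) (by positivity)
        have c4 := abs_add_le (x0.v * F + y0.v * E)
          ((L t x1 x2 x3 + E) * (L t y1 y2 y3 + F))
        have c5 := abs_add_le (x0.v * F) (y0.v * E)
        simp only [Nat.add_eq, Nat.mul_eq]
        push_cast
        linarith
      have hup := nat_up (Nat.add (Nat.add (Nat.mul x0.m f) (Nat.mul y0.m e))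
          (Nat.mul (Nat.add (lm x1 x2 x3) e) (Nat.add (lm y1 y2 y3) f)))
      have hQd : |Q / (Sc : ℝ)| ≤ (((Nat.add (Nat.add (Nat.mul x0.m f) (Nat.mul y0.m e))
          (Nat.mul (Nat.add (lm x1 x2 x3) e) (Nat.add (lm y1 y2 y3) f)) : Nat)) : ℝ) / (Sc : ℝ) := by
        rw [abs_div, abs_of_pos hS]
        gcongr
      have fin : r * s * (Sc : ℝ) - ((dS (Z.mul x0 y0)).v
          + L t (dS (Z.add (Z.mul x0 y1) (Z.mul y0 x1)))
            (dS (Z.add (Z.mul x0 y2) (Z.mul y0 x2))) (dS (Z.add (Z.mul x0 y3) (Z.mul y0 x3))))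
          = -((dS (Z.mul x0 y0)).v - x0.v * y0.v / (Sc : ℝ))
            + (-(L t (dS (Z.add (Z.mul x0 y1) (Z.mul y0 x1)))
            (dS (Z.add (Z.mul x0 y2) (Z.mul y0 x2))) (dS (Z.add (Z.mul x0 y3) (Z.mul y0 x3)))
            - (x0.v * L t y1 y2 y3 + y0.v * L t x1 x2 x3) / (Sc : ℝ)) + Q / (Sc : ℝ)) := by
        rw [key]
        ring
      rw [fin]
      have g1 := abs_add_le (-((dS (Z.mul x0 y0)).v - x0.v * y0.v / (Sc : ℝ)))
        (-(L t (dS (Z.add (Z.mul x0 y1) (Z.mul y0 x1)))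
            (dS (Z.add (Z.mul x0 y2) (Z.mul y0 x2))) (dS (Z.add (Z.mul x0 y3) (Z.mul y0 x3)))
            - (x0.v * L t y1 y2 y3 + y0.v * L t x1 x2 x3) / (Sc : ℝ)) + Q / (Sc : ℝ))
      have g2 := abs_add_le (-(L t (dS (Z.add (Z.mul x0 y1) (Z.mul y0 x1)))
            (dS (Z.add (Z.mul x0 y2) (Z.mul y0 x2))) (dS (Z.add (Z.mul x0 y3) (Z.mul y0 x3)))
            - (x0.v * L t y1 y2 y3 + y0.v * L t x1 x2 x3) / (Sc : ℝ))) (Q / (Sc : ℝ))
      rw [abs_neg] at g1 g2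
      have e5 : ((mulE x0 y0 (lm x1 x2 x3) (lm y1 y2 y3) e f : Nat) : ℝ)
          = ((Nat.div (Nat.add (Nat.add (Nat.mul x0.m f) (Nat.mul y0.m e))
          (Nat.mul (Nat.add (lm x1 x2 x3) e) (Nat.add (lm y1 y2 y3) f))) 1099511627776 : Nat) : ℝ)
          + 5 := by
        unfold mulE
        simp only [Nat.add_eq]
        push_cast
        rfl
      rw [e5]
      linarith

end AF

end Pool.Agent.IVL
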