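import Pool.Agent.IVL.Mul

namespace Pool.Agent.IVL

/-- Horner step: `S - u T / (S d)`. -/
noncomputable def hst (u t d : Nat) : Nat :=
  Nat.sub 1099511627776 (Nat.div (Nat.mul u t) (Nat.mul 1099511627776 d))

theorem hst_spec (u t d : Nat) (a b : ℝ) (hu : |(u : ℝ) - a * (Sc : ℝ)| ≤ 1)
    (ha0 : 0 ≤ a) (ha1 : a ≤ 1) (hb0 : 0 ≤ b) (hb1 : b ≤ 1) (huS : u ≤ 1099511627776)
    (htS : t ≤ 1099511627776)
    (ht : |(t : ℝ) - b * (Sc : ℝ)| ≤ 3) (hd : 2 ≤ d) :
    |((hst u t d : Nat) : ℝ) - (1 - a * b / (d : ℝ)) * (Sc : ℝ)| ≤ 3 ∧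
      hst u t d ≤ 1099511627776 ∧ 0 ≤ 1 - a * b / (d : ℝ) ∧ 1 - a * b / (d : ℝ) ≤ 1 := by
  have hS := Sc_pos
  have hSv := Sc_val
  have hd' : (2 : ℝ) ≤ (d : ℝ) := by exact_mod_cast hd
  have hd0 : (0 : ℝ) < (d : ℝ) := by linarith
  have hab : a * b ≤ 1 := mul_le_one₀ ha1 hb0 hb1
  have hab0 : 0 ≤ a * b := mul_nonneg ha0 hb0
  have hq1 : a * b / (d : ℝ) ≤ 1 := by
    rw [div_le_one hd0]
    linarith
  have hq0 : 0 ≤ a * b / (d : ℝ) := div_nonneg hab0 hd0.le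
  refine ⟨?_, ?_, by linarith, by linarith⟩
  · have hle : Nat.div (Nat.mul u t) (Nat.mul 1099511627776 d) ≤ 1099511627776 := by
      have h1 : u * t ≤ 1099511627776 * 1099511627776 := Nat.mul_le_mul huS htS
      change (u * t) / (1099511627776 * d) ≤ 1099511627776
      apply Nat.div_le_of_le_mul
      calc u * t ≤ 1099511627776 * 1099511627776 := h1
        _ ≤ 1099511627776 * d * 1099511627776 := by
          apply Nat.mul_le_mul_right
          omega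
    have hcast : ((hst u t d : Nat) : ℝ) = (Sc : ℝ)
        - ((Nat.div (Nat.mul u t) (Nat.mul 1099511627776 d) : Nat) : ℝ) := by
      unfold hst
      change ((1099511627776 - Nat.div (Nat.mul u t) (Nat.mul 1099511627776 d) : Nat) : ℝ) = _
      rw [Nat.cast_sub hle]
      rw [hSv]
      norm_num
    have hdiv := Z.nat_div_err (u * t) (1099511627776 * d) (by positivity)
    have e1 : (((1099511627776 * d : Nat)) : ℝ) = (Sc : ℝ) * (d : ℝ) := by
      rw [hSv]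
      push_cast
      ring
    rw [e1] at hdiv
    push_cast at hdiv
    have e2 : ((Nat.div (Nat.mul u t) (Nat.mul 1099511627776 d) : Nat) : ℝ)
        = ((u * t / (1099511627776 * d) : Nat) : ℝ) := rfl
    rw [hcast, e2]
    -- |u t/(S d) - a b S / d| <= 2
    have h3 : |(u : ℝ) * t / ((Sc : ℝ) * d) - a * b * (Sc : ℝ) / d| ≤ 2 := by
      have e3 : (u : ℝ) * t / ((Sc : ℝ) * d) - a * b * (Sc : ℝ) / d
          = (((u : ℝ) - a * (Sc : ℝ)) * ((t : ℝ) / (Sc : ℝ)) + a * ((t : ℝ) - b * (Sc : ℝ)))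
            / d := by
        field_simp
        ring
      rw [e3, abs_div, abs_of_pos hd0, div_le_iff₀ hd0]
      have htS' : (t : ℝ) / (Sc : ℝ) ≤ 1 := by
        rw [div_le_one hS, hSv]
        exact_mod_cast htS
      have ht0 : 0 ≤ (t : ℝ) / (Sc : ℝ) := by positivity
      have g1 : |((u : ℝ) - a * (Sc : ℝ)) * ((t : ℝ) / (Sc : ℝ))| ≤ 1 := by
        rw [abs_mul, abs_of_nonneg ht0]
        exact mul_le_one₀ hu ht0 htS'
      have g2 : |a * ((t : ℝ) - b * (Sc : ℝ))| ≤ 3 := by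
        rw [abs_mul, abs_of_nonneg ha0]
        calc a * |(t : ℝ) - b * (Sc : ℝ)| ≤ 1 * 3 := by gcongr
          _ = 3 := by norm_num
      have g3 := abs_add_le (((u : ℝ) - a * (Sc : ℝ)) * ((t : ℝ) / (Sc : ℝ)))
        (a * ((t : ℝ) - b * (Sc : ℝ)))
      linarith
    have e4 : (Sc : ℝ) - ((u * t / (1099511627776 * d) : Nat) : ℝ)
        - (1 - a * b / (d : ℝ)) * (Sc : ℝ)
        = -((((u * t / (1099511627776 * d) : Nat) : ℝ) - (u : ℝ) * t / ((Sc : ℝ) * d))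
          + ((u : ℝ) * t / ((Sc : ℝ) * d) - a * b * (Sc : ℝ) / d)) := by
      ring
    rw [e4, abs_neg]
    have g4 := abs_add_le ((((u * t / (1099511627776 * d) : Nat) : ℝ)
      - (u : ℝ) * t / ((Sc : ℝ) * d))) ((u : ℝ) * t / ((Sc : ℝ) * d) - a * b * (Sc : ℝ) / d)
    linarith
  · unfold hst
    exact Nat.sub_le _ _

/-- The cosine Taylor polynomial in Horner form. -/
noncomputable def cT (y : ℝ) : ℝ :=
  1 - y ^ 2 * (1 - y ^ 2 * (1 - y ^ 2 * (1 - y ^ 2 * (1 - y ^ 2 * (1 - y ^ 2 / 132) / 90) / 56)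
    / 30) / 12) / 2

/-- The sine Taylor polynomial divided by `y` in Horner form. -/
noncomputable def sT (y : ℝ) : ℝ :=
  1 - y ^ 2 * (1 - y ^ 2 * (1 - y ^ 2 * (1 - y ^ 2 * (1 - y ^ 2 * (1 - y ^ 2 / 156) / 110) / 72)
    / 42) / 20) / 6

theorem taylor_cs (y : ℝ) (hy : |y| ≤ 1) :
    |Real.cos y - cT y| ≤ 13 / 10 ^ 12 ∧ |Real.sin y - y * sT y| ≤ 13 / 10 ^ 12 := by
  have hn : ‖((y : ℂ) * Complex.I)‖ ≤ 1 := by
    rw [norm_mul, Complex.norm_I, mul_one, Complex.norm_real]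
    exact hy
  have h := Complex.exp_bound hn (n := 14) (by norm_num)
  have hb : ‖((y : ℂ) * Complex.I)‖ ^ 14 * ((Nat.succ 14 : ℕ) * ((Nat.factorial 14 : ℕ) * (14 : ℕ) : ℝ)⁻¹)
      ≤ 13 / 10 ^ 12 := by
    have h1 : ‖((y : ℂ) * Complex.I)‖ ^ 14 ≤ 1 := pow_le_one₀ (norm_nonneg _) hn
    have h2 : ((Nat.succ 14 : ℕ) * ((Nat.factorial 14 : ℕ) * (14 : ℕ) : ℝ)⁻¹) ≤ 13 / 10 ^ 12 := by
      norm_num [Nat.factorial]
    have h3 : 0 ≤ ((Nat.succ 14 : ℕ) * ((Nat.factorial 14 : ℕ) * (14 : ℕ) : ℝ)⁻¹) := by positivity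
    calc _ ≤ 1 * ((Nat.succ 14 : ℕ) * ((Nat.factorial 14 : ℕ) * (14 : ℕ) : ℝ)⁻¹) := by gcongr
      _ ≤ _ := by rw [one_mul]; exact h2
  have h' := h.trans hb
  have hexp : Complex.exp ((y : ℂ) * Complex.I) = (Real.cos y : ℂ) + (Real.sin y : ℂ) * Complex.I := by
    rw [Complex.exp_mul_I, Complex.ofReal_cos, Complex.ofReal_sin]
  have hsum : ∑ m ∈ Finset.range 14, ((y : ℂ) * Complex.I) ^ m / (Nat.factorial m : ℂ)
      = ((cT y : ℝ) : ℂ) + ((y * sT y : ℝ) : ℂ) * Complex.I := by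
    have i2 : Complex.I ^ 2 = -1 := Complex.I_sq
    have i3 : Complex.I ^ 3 = -Complex.I := by rw [pow_succ, i2]; ring
    have i4 : Complex.I ^ 4 = 1 := by
      rw [show (4 : ℕ) = 2 * 2 by norm_num, pow_mul, i2]; norm_num
    have i5 : Complex.I ^ 5 = Complex.I := by rw [pow_succ, i4]; ring
    have i6 : Complex.I ^ 6 = -1 := by
      rw [show (6 : ℕ) = 2 * 3 by norm_num, pow_mul, i2]; norm_num
    have i7 : Complex.I ^ 7 = -Complex.I := by rw [pow_succ, i6]; ring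
    have i8 : Complex.I ^ 8 = 1 := by
      rw [show (8 : ℕ) = 2 * 4 by norm_num, pow_mul, i2]; norm_num
    have i9 : Complex.I ^ 9 = Complex.I := by rw [pow_succ, i8]; ring
    have i10 : Complex.I ^ 10 = -1 := by
      rw [show (10 : ℕ) = 2 * 5 by norm_num, pow_mul, i2]; norm_num
    have i11 : Complex.I ^ 11 = -Complex.I := by rw [pow_succ, i10]; ring
    have i12 : Complex.I ^ 12 = 1 := by
      rw [show (12 : ℕ) = 2 * 6 by norm_num, pow_mul, i2]; norm_num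
    have i13 : Complex.I ^ 13 = Complex.I := by rw [pow_succ, i12]; ring
    simp only [Finset.sum_range_succ, Finset.sum_range_zero, mul_pow, i2, i3, i4, i5, i6, i7, i8,
      i9, i10, i11, i12, i13, pow_zero, pow_one]
    simp only [Nat.factorial]
    unfold cT sT
    push_cast
    ring
  rw [hexp, hsum] at h'
  have hz : (Real.cos y : ℂ) + (Real.sin y : ℂ) * Complex.I
      - (((cT y : ℝ) : ℂ) + ((y * sT y : ℝ) : ℂ) * Complex.I)
      = ((Real.cos y - cT y : ℝ) : ℂ) + ((Real.sin y - y * sT y : ℝ) : ℂ) * Complex.I := by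
    push_cast
    ring
  rw [hz] at h'
  constructor
  · have h1 := (Complex.abs_re_le_norm (((Real.cos y - cT y : ℝ) : ℂ)
      + ((Real.sin y - y * sT y : ℝ) : ℂ) * Complex.I)).trans h'
    simp only [Complex.add_re, Complex.ofReal_re, Complex.mul_re, Complex.I_re, mul_zero,
      Complex.ofReal_im, zero_mul, sub_zero, add_zero] at h1
    exact h1
  · have h1 := (Complex.abs_im_le_norm (((Real.cos y - cT y : ℝ) : ℂ)
      + ((Real.sin y - y * sT y : ℝ) : ℂ) * Complex.I)).trans h'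
    simp only [Complex.add_im, Complex.ofReal_im, Complex.mul_im, Complex.I_re, mul_zero,
      Complex.ofReal_re, Complex.I_im, mul_one, add_zero, zero_add] at h1
    exact h1

end Pool.Agent.IVL
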