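import Mathlib

/-!
Kernel friendly signed integers: sign and magnitude, raw recursors, magnitudes are `Nat`
(whose arithmetic is fast in the kernel).
-/

namespace Pool.Agent.IVL

/-- Signed integers by sign and magnitude. -/
inductive Z where
  | p (a : Nat) : Z
  | n (a : Nat) : Z

namespace Z

/-- The value. -/
noncomputable def v (x : Z) : ℝ := Z.rec (fun a => (a : ℝ)) (fun a => -(a : ℝ)) x

@[simp] theorem v_p (a : Nat) : (Z.p a).v = (a : ℝ) := rfl
@[simp] theorem v_n (a : Nat) : (Z.n a).v = -(a : ℝ) := rfl

/-- magnitude -/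
noncomputable def m (x : Z) : Nat := Z.rec (fun a => a) (fun a => a) x

@[simp] theorem m_p (a : Nat) : (Z.p a).m = a := rfl
@[simp] theorem m_n (a : Nat) : (Z.n a).m = a := rfl

theorem abs_v (x : Z) : |x.v| = (x.m : ℝ) := by
  cases x with
  | p a => simp
  | n a => simp

/-- negation -/
noncomputable def neg (x : Z) : Z := Z.rec (fun a => Z.n a) (fun a => Z.p a) x

theorem v_neg (x : Z) : x.neg.v = -x.v := by
  cases x with
  | p a => simp [neg]
  | n a => simp [neg]

/-- product -/
noncomputable def mul (x y : Z) : Z :=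
  Z.rec (fun a => Z.rec (fun b => Z.p (Nat.mul a b)) (fun b => Z.n (Nat.mul a b)) y)
    (fun a => Z.rec (fun b => Z.n (Nat.mul a b)) (fun b => Z.p (Nat.mul a b)) y) x

theorem v_mul (x y : Z) : (mul x y).v = x.v * y.v := by
  cases x with
  | p a => cases y with
    | p b => simp [mul]
    | n b => simp [mul]
  | n a => cases y with
    | p b => simp [mul]
    | n b => simp [mul]

/-- difference of naturals -/
noncomputable def dif (a b : Nat) : Z :=
  Bool.rec (Z.n (Nat.sub b a)) (Z.p (Nat.sub a b)) (Nat.ble b a)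

theorem v_dif (a b : Nat) : (dif a b).v = (a : ℝ) - (b : ℝ) := by
  unfold dif
  by_cases h : b ≤ a
  · have h1 : Nat.ble b a = true := by simpa using h
    rw [h1]
    simp [Nat.cast_sub h]
  · have h1 : Nat.ble b a = false := by
      rw [Bool.eq_false_iff]
      intro h2
      exact h (by simpa using h2)
    rw [h1]
    have h3 : a ≤ b := by omega
    simp [Nat.cast_sub h3]

/-- sum -/
noncomputable def add (x y : Z) : Z :=
  Z.rec (fun a => Z.rec (fun b => Z.p (Nat.add a b)) (fun b => dif a b) y)
    (fun a => Z.rec (fun b => dif b a) (fun b => Z.n (Nat.add a b)) y) x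

theorem v_add (x y : Z) : (add x y).v = x.v + y.v := by
  cases x with
  | p a => cases y with
    | p b => simp [add]
    | n b => simp only [add, v_dif, v_p, v_n]; ring
  | n a => cases y with
    | p b => simp only [add, v_dif, v_p, v_n]; ring
    | n b => simp [add]; ring

/-- division of the magnitude by the natural number `s` (rounding towards zero) -/
noncomputable def dv (s : Nat) (x : Z) : Z :=
  Z.rec (fun a => Z.p (Nat.div a s)) (fun a => Z.n (Nat.div a s)) x

theorem nat_div_err (a s : Nat) (hs : 0 < s) :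
    |((a / s : Nat) : ℝ) - (a : ℝ) / (s : ℝ)| ≤ 1 := by
  have hs' : (0 : ℝ) < s := by exact_mod_cast hs
  have h1 : ((a / s : Nat) : ℝ) ≤ (a : ℝ) / (s : ℝ) := Nat.cast_div_le
  have h2 : (a : ℝ) / (s : ℝ) < ((a / s : Nat) : ℝ) + 1 := by
    rw [div_lt_iff₀ hs']
    have h3 : a < (a / s + 1) * s := by
      have := Nat.lt_mul_div_succ a hs
      rw [mul_comm] at this
      simpa using this
    exact_mod_cast h3
  rw [abs_le]
  constructor
  · linarith
  · linarith

theorem dv_err (s : Nat) (hs : 0 < s) (x : Z) : |(dv s x).v - x.v / (s : ℝ)| ≤ 1 := by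
  cases x with
  | p a => exact nat_div_err a s hs
  | n a =>
    have h := nat_div_err a s hs
    have e : (dv s (Z.n a)).v - (Z.n a).v / (s : ℝ)
        = -(((a / s : Nat) : ℝ) - (a : ℝ) / (s : ℝ)) := by
      simp only [dv, v_n]
      change -(((a / s : Nat) : ℝ)) - -(a : ℝ) / (s : ℝ) = _
      ring
    rw [e, abs_neg]
    exact h

/-- force a natural number and continue -/
noncomputable def fcN {β : Type} (a : Nat) (k : Nat → β) : β :=
  Nat.rec (k 0) (fun m _ => k (Nat.succ m)) a

theorem fcN_eq {β : Type} (a : Nat) (k : Nat → β) : fcN a k = k a := by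
  cases a with
  | zero => rfl
  | succ m => rfl

/-- force and continue -/
noncomputable def fc {β : Type} (x : Z) (k : Z → β) : β :=
  Z.rec (fun a => fcN a (fun b => k (Z.p b))) (fun a => fcN a (fun b => k (Z.n b))) x

theorem fc_eq {β : Type} (x : Z) (k : Z → β) : fc x k = k x := by
  cases x with
  | p a => simp [fc, fcN_eq]
  | n a => simp [fc, fcN_eq]

end Z

end Pool.Agent.IVL
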